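import Mathlib

/-! Connectivity, independence and the choice of Chvatal and Erdos. -/

namespace Pool.Agent.Lib.MP_0a7691_co.CS

open SimpleGraph Finset
open scoped Classical

variable {V : Type*} [Fintype V] {G : SimpleGraph V} {a k : ℕ}

/-- Every set of more than `a` vertices spans an edge. -/
def Ind (G : SimpleGraph V) (a : ℕ) : Prop :=
  ∀ S : Finset V, a < S.card → ∃ x ∈ S, ∃ y ∈ S, G.Adj x y

/-- Fewer than `k` vertices do not separate, and there are more than `k` vertices. -/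
def Con (G : SimpleGraph V) (k : ℕ) : Prop :=
  k < Fintype.card V ∧ ∀ F : Finset V, F.card < k → ∀ x ∉ F, ∀ y ∉ F,
    ∃ p : G.Walk x y, ∀ v ∈ p.support, v ∉ F

theorem Con.nbr (h : Con G k) (v : V) {F : Finset V} (hF : F.card < k) : ∃ w ∉ F, G.Adj v w := by
  have h1 : (insert v (F.erase v)).card < (univ : Finset V).card := by
    have := card_insert_le v (F.erase v)
    have := card_erase_le (s := F) (a := v)
    have := h.1
    rw [card_univ]
    omega
  obtain ⟨y, -, hy⟩ := exists_mem_notMem_of_card_lt_card h1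
  rw [mem_insert, not_or] at hy
  obtain ⟨p, hp⟩ := h.2 (F.erase v) (lt_of_le_of_lt card_erase_le hF) v (notMem_erase v F) y hy.2
  cases p with
  | nil => exact absurd rfl hy.1
  | cons h' q =>
    refine ⟨_, fun hm => hp _ (by simp) (mem_erase.2 ⟨h'.ne', hm⟩), h'⟩

theorem Con.deg (h : Con G k) (v : V) : k ≤ (univ.filter fun w => G.Adj v w).card := by
  by_contra hc
  obtain ⟨w, hw, ha⟩ := h.nbr v (not_le.1 hc)
  exact hw (mem_filter.2 ⟨mem_univ _, ha⟩)

/-- A triangle at `d` that avoids `F`. -/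
theorem Con.tri (h : Con G k) (hi : Ind G a) (d : V) {F : Finset V} (hF : F.card + a < k) :
    ∃ p ∉ F, ∃ q ∉ F, G.Adj d p ∧ G.Adj d q ∧ G.Adj p q := by
  have h1 := h.deg d
  have h2 := le_card_sdiff F (univ.filter fun w => G.Adj d w)
  obtain ⟨p, hp, q, hq, hpq⟩ := hi ((univ.filter fun w => G.Adj d w) \ F) (by omega)
  rw [mem_sdiff, mem_filter] at hp hq
  exact ⟨p, hp.2, q, hq.2, hp.1.2, hq.1.2, hpq⟩

omit [Fintype V] in
theorem split1 {x y : V} (q : G.Walk x y) {e : G.Dart} (he : e ∈ q.darts) :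
    ∃ (q1 : G.Walk x e.fst) (q2 : G.Walk e.snd y), q = q1.append (Walk.cons e.adj q2) := by
  induction q with
  | nil => simp at he
  | cons h r ih =>
    rw [Walk.darts_cons, List.mem_cons] at he
    rcases he with rfl | he
    · exact ⟨Walk.nil, r, rfl⟩
    · obtain ⟨q1, q2, rfl⟩ := ih he
      exact ⟨Walk.cons h q1, q2, rfl⟩

omit [Fintype V] in
theorem split2 {x y : V} (q : G.Walk x y) {e e' : G.Dart} (he : e ∈ q.darts) (he' : e' ∈ q.darts)
    (hne : e ≠ e') :
    (∃ (q1 : G.Walk x e.fst) (q2 : G.Walk e.snd e'.fst) (q3 : G.Walk e'.snd y),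
      q = q1.append (Walk.cons e.adj (q2.append (Walk.cons e'.adj q3)))) ∨
    ∃ (q1 : G.Walk x e'.fst) (q2 : G.Walk e'.snd e.fst) (q3 : G.Walk e.snd y),
      q = q1.append (Walk.cons e'.adj (q2.append (Walk.cons e.adj q3))) := by
  obtain ⟨q1, q2, rfl⟩ := split1 q he
  rw [Walk.darts_append, Walk.darts_cons, List.mem_append, List.mem_cons] at he'
  rcases he' with h | h | h
  · obtain ⟨r1, r2, rfl⟩ := split1 q1 h
    exact Or.inr ⟨r1, r2, q2, by rw [← Walk.append_assoc, Walk.cons_append]⟩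
  · exact absurd h.symm hne
  · obtain ⟨r1, r2, rfl⟩ := split1 q2 h
    exact Or.inl ⟨q1, r1, r2, rfl⟩

omit [Fintype V] in
/-- The choice of Chvatal and Erdos among darts with distinct heads. -/
theorem Ind.pick (hi : Ind G a) {l : List G.Dart} (hl : (l.map (·.snd)).Nodup) {A : V → Prop}
    {d : V} (hd : d ∉ l.map (·.snd)) (hc : a ≤ (((l.map (·.fst)).toFinset).filter A).card) :
    (∃ e ∈ l, A e.fst ∧ G.Adj d e.snd) ∨
      ∃ e ∈ l, ∃ e' ∈ l, e ≠ e' ∧ A e.fst ∧ A e'.fst ∧ G.Adj e.snd e'.snd := by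
  have inj : Set.InjOn (fun e : G.Dart => e.snd) (l.toFinset.filter fun e => A e.fst) := by
    intro e he e' he' h
    exact List.inj_on_of_nodup_map hl (List.mem_toFinset.1 (mem_filter.1 (mem_coe.1 he)).1)
      (List.mem_toFinset.1 (mem_filter.1 (mem_coe.1 he')).1) h
  have c1 : (((l.map (·.fst)).toFinset).filter A).card ≤
      (l.toFinset.filter fun e => A e.fst).card := by
    refine le_trans (card_le_card ?_) (card_image_le (f := fun e : G.Dart => e.fst))
    intro v hv
    rw [mem_filter, List.mem_toFinset, List.mem_map] at hv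
    obtain ⟨⟨e, he, rfl⟩, hA⟩ := hv
    exact mem_image.2 ⟨e, mem_filter.2 ⟨List.mem_toFinset.2 he, hA⟩, rfl⟩
  have nd : d ∉ (l.toFinset.filter fun e => A e.fst).image fun e : G.Dart => e.snd := by
    intro hm
    obtain ⟨e, he, rfl⟩ := mem_image.1 hm
    exact hd (List.mem_map.2 ⟨e, List.mem_toFinset.1 (mem_filter.1 he).1, rfl⟩)
  obtain ⟨u, hu, w, hw, ha⟩ := hi
    (insert d ((l.toFinset.filter fun e => A e.fst).image fun e : G.Dart => e.snd))
    (by rw [card_insert_of_notMem nd, card_image_of_injOn inj]; omega)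
  rcases mem_insert.1 hu with rfl | hu
  · rcases mem_insert.1 hw with rfl | hw
    · exact absurd rfl ha.ne
    · obtain ⟨e, he, rfl⟩ := mem_image.1 hw
      rw [mem_filter, List.mem_toFinset] at he
      exact Or.inl ⟨e, he.1, he.2, ha⟩
  · obtain ⟨e, he, rfl⟩ := mem_image.1 hu
    rw [mem_filter, List.mem_toFinset] at he
    rcases mem_insert.1 hw with rfl | hw
    · exact Or.inl ⟨e, he.1, he.2, ha.symm⟩
    · obtain ⟨e', he', rfl⟩ := mem_image.1 hw
      rw [mem_filter, List.mem_toFinset] at he'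
      exact Or.inr ⟨e, he.1, e', he'.1, fun h => ha.ne (by rw [h]), he.2, he'.2, ha⟩

end Pool.Agent.Lib.MP_0a7691_co.CS
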