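import Pool.Agent.Lib.MP_0a7691_co.CS.Span

/-! The value of an insertion depends only on the inserted vertex. -/

namespace Pool.Agent.Lib.MP_0a7691_co.CS

open SimpleGraph Finset
open scoped Classical

variable {V : Type*} [Fintype V] {G : SimpleGraph V} {a k : ℕ} {φ : Sym2 V → ZMod 2}

/-- The weight of a walk. -/
def ph (φ : Sym2 V → ZMod 2) {x y : V} (p : G.Walk x y) : ZMod 2 := (p.edges.map φ).sum

omit [Fintype V] in
theorem ph_cons {x y z : V} (h : G.Adj x y) (p : G.Walk y z) :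
    ph φ (Walk.cons h p) = φ s(x, y) + ph φ p := by
  simp [ph]

omit [Fintype V] in
theorem ph_append {x y z : V} (p : G.Walk x y) (q : G.Walk y z) :
    ph φ (p.append q) = ph φ p + ph φ q := by
  simp [ph]

omit [Fintype V] in
theorem ph_reverse {x y : V} (p : G.Walk x y) : ph φ p.reverse = ph φ p := by
  simp [ph, List.sum_reverse]

/-- The weight vanishes on Hamilton cycles. -/
def Van (G : SimpleGraph V) (φ : Sym2 V → ZMod 2) : Prop :=
  ∀ (x y : V) (r : G.Walk x y), r.IsPath → G.Adj y x → (∀ v, v ∈ r.support) →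
    ph φ r + φ s(y, x) = 0

omit [Fintype V] in
theorem sw (φ : Sym2 V → ZMod 2) (x y : V) : φ s(x, y) = φ s(y, x) := by
  rw [Sym2.eq_swap]

theorem two0 : (2 : ZMod 2) = 0 := rfl

omit [Fintype V] in
theorem ph_jn {x u w y : V} (p : G.Walk x u) (h : G.Adj u w) (q : G.Walk w y) :
    ph φ (jn p h q) = ph φ p + φ s(u, w) + ph φ q := by
  rw [jn, ph_append, ph_cons, add_assoc]

omit [Fintype V] in
theorem two_ham (hv : Van G φ) {d u u' w w' p q : V} (du : G.Adj d u) (dw : G.Adj d w)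
    (uu : G.Adj u u') (ww : G.Adj w w') (uw : G.Adj u' w') (dp : G.Adj d p) (dq : G.Adj d q)
    (pq : G.Adj p q) (R1 : G.Walk w' p) (R2 : G.Walk q u) (P : G.Walk u' w)
    (nd : (d :: ((jn R1 pq R2).support ++ P.support)).Nodup)
    (al : ∀ v, v ∈ d :: ((jn R1 pq R2).support ++ P.support)) :
    φ s(d, u) + φ s(u, u') + φ s(u', w') + φ s(w, w') + φ s(d, w) =
      φ s(d, p) + φ s(p, q) + φ s(d, q) := by
  have q1 : (Walk.cons dq (jn R2 uu (jn P ww R1))).support.Perm
      (d :: ((jn R1 pq R2).support ++ P.support)) := by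
    rw [List.perm_iff_count]
    intro v
    simp only [support_jn, Walk.support_cons, List.count_append, List.count_cons]
    omega
  have q2 : (jn (jn R1 pq R2) du.symm (Walk.cons dw P.reverse)).support.Perm
      (d :: ((jn R1 pq R2).support ++ P.support)) := by
    rw [List.perm_iff_count]
    intro v
    simp only [support_jn, Walk.support_cons, List.count_append, List.count_cons,
      Walk.support_reverse, List.count_reverse]
    omega
  have e1 := hv _ _ _ ((Walk.isPath_def _).2 (q1.nodup_iff.2 nd)) dp.symm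
    fun v => q1.mem_iff.2 (al v)
  have e2 := hv _ _ _ ((Walk.isPath_def _).2 (q2.nodup_iff.2 nd)) uw
    fun v => q2.mem_iff.2 (al v)
  simp only [ph_cons, ph_jn, ph_reverse] at e1 e2
  linear_combination e1 + e2 + sw φ d u - sw φ p d -
    (ph φ R1 + ph φ R2 + ph φ P + φ s(d, q) + φ s(p, q) + φ s(d, p)) * two0

/-- An insertion at `d` has the value of a triangle at `d` that is disjoint from it. -/
theorem ins_val (hi : Ind G a) (hc : Con G k) (hk : a + 5300 ≤ k) (hv : Van G φ)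
    {d u u' w w' p q : V} (du : G.Adj d u) (dw : G.Adj d w) (uu : G.Adj u u') (ww : G.Adj w w')
    (uw : G.Adj u' w') (dp : G.Adj d p) (dq : G.Adj d q) (pq : G.Adj p q)
    (hn : [d, q, u, w', p].Nodup) (h1 : u' ∉ [d, q, u, w', p]) (h2 : w ∉ [d, q, u, w', p]) :
    φ s(d, u) + φ s(u, u') + φ s(u', w') + φ s(w, w') + φ s(d, w) =
      φ s(d, p) + φ s(p, q) + φ s(d, q) := by
  obtain ⟨R, P, r1, r2, r3⟩ := span2 hi hc hk pq hn h1 h2
  rcases split_edge pq R r1 with ⟨R1, R2, rfl⟩ | ⟨R1, R2, rfl⟩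
  · exact two_ham hv du dw uu ww uw dp dq pq R1 R2 P r2 r3
  · rw [two_ham hv du dw uu ww uw dq dp pq.symm R1 R2 P r2 r3, sw φ q p]
    ring

/-- The value of the insertions at a vertex depends only on the vertex. -/
theorem exists_t (hi : Ind G a) (hc : Con G k) (hk : a + 5300 ≤ k) (hv : Van G φ) :
    ∃ t : V → ZMod 2,
      (∀ d p q, G.Adj d p → G.Adj d q → G.Adj p q → φ s(d, p) + φ s(p, q) + φ s(d, q) = t d) ∧
      ∀ d u u' w w', G.Adj d u → G.Adj d w → G.Adj u u' → G.Adj w w' → G.Adj u' w' →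
        u' ≠ d → w' ≠ d → u ≠ w →
        φ s(d, u) + φ s(u, u') + φ s(u', w') + φ s(w, w') + φ s(d, w) = t d := by
  have t1 : ∀ d u w p q, G.Adj d u → G.Adj d w → G.Adj u w → G.Adj d p → G.Adj d q → G.Adj p q →
      p ≠ u → p ≠ w → q ≠ u → q ≠ w →
      φ s(d, u) + φ s(u, w) + φ s(d, w) = φ s(d, p) + φ s(p, q) + φ s(d, q) := by
    intro d u w p q du dw uw dp dq pq n1 n2 n3 n4
    obtain ⟨w', hw', ww⟩ := hc.nbr w (F := [d, u, p, q].toFinset)
      ((List.toFinset_card_le _).trans_lt (by simp only [List.length_cons, List.length_nil]; omega))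
    simp only [List.mem_toFinset, List.mem_cons, List.not_mem_nil, or_false, not_or] at hw'
    have hm : w ∉ [d, q, u, w', p] := by
      simp only [List.mem_cons, List.not_mem_nil, or_false, not_or]
      exact ⟨dw.ne', n4.symm, uw.ne', ww.ne, n2.symm⟩
    have := ins_val hi hc hk hv du dw uw ww ww dp dq pq (by
      simp only [List.nodup_cons, List.mem_cons, List.not_mem_nil, or_false, not_or]
      exact ⟨⟨dq.ne, du.ne, Ne.symm hw'.1, dp.ne⟩, ⟨n3, Ne.symm hw'.2.2.2, pq.ne'⟩,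
        ⟨Ne.symm hw'.2.1, n1.symm⟩, hw'.2.2.1, not_false, List.nodup_nil⟩) hm hm
    linear_combination this - φ s(w, w') * two0
  have t4 : ∀ d x1 x2 x3 x4 : V, ∃ p q, G.Adj d p ∧ G.Adj d q ∧ G.Adj p q ∧
      p ∉ [x1, x2, x3, x4] ∧ q ∉ [x1, x2, x3, x4] := by
    intro d x1 x2 x3 x4
    have := List.toFinset_card_le [x1, x2, x3, x4]
    simp only [List.length_cons, List.length_nil] at this
    obtain ⟨p, hp, q, hq, h⟩ := hc.tri hi d (F := [x1, x2, x3, x4].toFinset) (by omega)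
    exact ⟨p, q, h.1, h.2.1, h.2.2, fun m => hp (List.mem_toFinset.2 m),
      fun m => hq (List.mem_toFinset.2 m)⟩
  choose p0 q0 h0 using fun d => t4 d d d d d
  have t2 : ∀ d p q, G.Adj d p → G.Adj d q → G.Adj p q → φ s(d, p) + φ s(p, q) + φ s(d, q) =
      φ s(d, p0 d) + φ s(p0 d, q0 d) + φ s(d, q0 d) := by
    intro d p q dp dq pq
    obtain ⟨x, y, dx, dy, xy, hx, hy⟩ := t4 d p q (p0 d) (q0 d)
    simp only [List.mem_cons, List.not_mem_nil, or_false, not_or] at hx hy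
    rw [t1 d p q x y dp dq pq dx dy xy hx.1 hx.2.1 hy.1 hy.2.1,
      t1 d (p0 d) (q0 d) x y (h0 d).1 (h0 d).2.1 (h0 d).2.2.1 dx dy xy hx.2.2.1 hx.2.2.2 hy.2.2.1
        hy.2.2.2]
  refine ⟨fun d => φ s(d, p0 d) + φ s(p0 d, q0 d) + φ s(d, q0 d), t2, ?_⟩
  intro d u u' w w' du dw uu ww uw n1 n2 n3
  by_cases n4 : u = w'
  · subst n4
    linear_combination t2 d w u dw du ww + sw φ u u' + φ s(u', u) * two0
  obtain ⟨p, q, dp, dq, pq, hp, hq⟩ := t4 d u u' w w'
  simp only [List.mem_cons, List.not_mem_nil, or_false, not_or] at hp hq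
  rw [ins_val hi hc hk hv du dw uu ww uw dp dq pq ?_ ?_ ?_, t2 d p q dp dq pq]
  · simp only [List.nodup_cons, List.mem_cons, List.not_mem_nil, or_false, not_or]
    exact ⟨⟨dq.ne, du.ne, n2.symm, dp.ne⟩, ⟨hq.1, hq.2.2.2, pq.ne'⟩,
      ⟨n4, Ne.symm hp.1⟩, Ne.symm hp.2.2.2, not_false, List.nodup_nil⟩
  · simp only [List.mem_cons, List.not_mem_nil, or_false, not_or]
    exact ⟨n1, Ne.symm hq.2.1, uu.ne', uw.ne, Ne.symm hp.2.1⟩
  · simp only [List.mem_cons, List.not_mem_nil, or_false, not_or]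
    exact ⟨dw.ne', Ne.symm hq.2.2.1, n3.symm, ww.ne, Ne.symm hp.2.2.1⟩

end Pool.Agent.Lib.MP_0a7691_co.CS
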