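import Pool.Agent.Lib.MP_0a7691_co.CS.Knit

/-! Isolating a knitted piece with a small boundary. -/

namespace Pool.Agent.Lib.MP_0a7691_co.CS

open SimpleGraph Finset
open scoped Classical
open Pool.Agent.Lib.MP_c13936_co (Sep)

variable {V : Type*} [Fintype V] {G : SimpleGraph V}

/-- The contribution of `y` to the weight of the boundary of `A`. -/
noncomputable def cw (G : SimpleGraph V) (A : Finset V) (y : V) : ℕ :=
  if y ∈ A then 0 else min (dg G A y) 13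

/-- The weight of the boundary of `A` inside `K`. -/
noncomputable def bw (G : SimpleGraph V) (K A : Finset V) : ℕ := ∑ y ∈ K, cw G A y

omit [Fintype V] in
theorem dg_zero {A : Finset V} {y : V} (h : ∀ v ∈ A, ¬ G.Adj y v) : dg G A y = 0 :=
  card_eq_zero.2 (filter_eq_empty_iff.2 h)

omit [Fintype V] in
theorem dg_mono {A B : Finset V} (h : A ⊆ B) (y : V) : dg G A y ≤ dg G B y :=
  card_le_card (filter_subset_filter _ h)

omit [Fintype V] in
theorem dg_add {A B C : Finset V} (hA : A ⊆ C) (hB : B ⊆ C) (h : Disjoint A B) (y : V) :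
    dg G A y + dg G B y ≤ dg G C y := by
  unfold dg
  rw [← card_union_of_disjoint (disjoint_filter_filter h), ← filter_union]
  exact card_le_card (filter_subset_filter _ (union_subset hA hB))

omit [Fintype V] in
theorem bw_le {K A F : Finset V} (h : ∀ y ∈ K, y ∉ A → y ∉ F → ∀ v ∈ A, ¬ G.Adj y v) :
    bw G K A ≤ 13 * F.card := by
  have h1 : bw G K A ≤ ∑ y ∈ K, if y ∈ F then 13 else 0 := by
    refine sum_le_sum fun y hy => ?_
    unfold cw
    split_ifs with h1 h2 h2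
    · omega
    · omega
    · omega
    · rw [dg_zero (h y hy h1 h2)]
      omega
  rw [← sum_filter, sum_const, smul_eq_mul, mul_comm] at h1
  exact h1.trans (Nat.mul_le_mul_left _ (card_le_card fun y hy => (mem_filter.1 hy).2))

omit [Fintype V] in
theorem isolate {K A0 : Finset V} (hK : A0 ⊆ K) (hne : A0.Nonempty) (hw : bw G K A0 ≤ 338)
    (hd : ∀ v ∈ A0, 5210 ≤ dg G K v) :
    ∃ A H X : Finset V, A ⊆ H ∧ H ⊆ K ∧ X.card ≤ 338 ∧ Knit G H ∧ 5 ≤ A.card ∧
      (∀ v ∈ A, 14 ≤ dg G H v) ∧ ∀ v ∈ A, ∀ w, G.Adj v w → w ∈ A ∨ w ∈ X ∨ w ∉ K := by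
  obtain ⟨A, hA, hmin⟩ := exists_min_image
    (A0.powerset.filter fun A => A.Nonempty ∧ bw G K A ≤ 338) card
    ⟨A0, mem_filter.2 ⟨mem_powerset_self _, hne, hw⟩⟩
  rw [mem_filter, mem_powerset] at hA
  obtain ⟨a0, an, aw⟩ := hA
  obtain ⟨X, hX⟩ : ∃ X, X = K.filter fun y => y ∉ A ∧ ∃ v ∈ A, G.Adj v y := ⟨_, rfl⟩
  obtain ⟨H, hH⟩ : ∃ H, H = K.filter fun y => y ∈ A ∨ 13 < dg G A y := ⟨_, rfl⟩
  have mH : ∀ y, y ∈ H ↔ y ∈ K ∧ (y ∈ A ∨ 13 < dg G A y) := fun y => by rw [hH, mem_filter]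
  have AH : A ⊆ H := fun y hy => (mH y).2 ⟨hK (a0 hy), Or.inl hy⟩
  have cX : X.card ≤ 338 := by
    refine le_trans ?_ aw
    rw [hX, card_filter]
    refine sum_le_sum fun y _ => ?_
    unfold cw
    split_ifs with h1 h2 h2
    · exact absurd h2 h1.1
    · obtain ⟨v, hv, ha⟩ := h1.2
      have : 0 < dg G A y := card_pos.2 ⟨v, mem_filter.2 ⟨hv, ha.symm⟩⟩
      omega
    · omega
    · omega
  have nb : ∀ v ∈ A, ∀ w, G.Adj v w → w ∈ A ∨ w ∈ X ∨ w ∉ K := by
    intro v hv w ha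
    by_contra hc
    rw [not_or, not_or, not_not] at hc
    exact hc.2.1 (hX ▸ mem_filter.2 ⟨hc.2.2, hc.1, v, hv, ha⟩)
  have dA : ∀ v ∈ A, 4872 ≤ dg G A v := by
    intro v hv
    have h1 := hd v (a0 hv)
    have h2 : dg G K v ≤ ((A.filter fun w => G.Adj v w) ∪ X).card := by
      refine card_le_card fun w hw => ?_
      rw [mem_filter] at hw
      rcases nb v hv w hw.2 with h | h | h
      · exact mem_union_left _ (mem_filter.2 ⟨h, hw.2⟩)
      · exact mem_union_right _ h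
      · exact absurd hw.1 h
    have h3 := card_union_le (A.filter fun w => G.Adj v w) X
    unfold dg at *
    omega
  refine ⟨A, H, X, AH, fun y hy => ((mH y).1 hy).1, cX, knit_of AH an dA ?_, ?_,
    fun v hv => le_trans (by have := dA v hv; omega) (dg_mono AH v), nb⟩
  swap
  · obtain ⟨v, hv⟩ := an
    have := dA v hv
    have := dg_le (G := G) A v
    omega
  intro B1 B2 hS hc
  by_contra hn
  rw [not_or, not_subset, not_subset] at hn
  have mB : ∀ y, y ∈ H ↔ y ∈ B1 ∨ y ∈ B2 := fun y => by rw [← hS.1, mem_union]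
  have side : ∀ C1 C2 : Finset V, (∀ y, y ∈ H ↔ y ∈ C1 ∨ y ∈ C2) → (C1 ∩ C2).card ≤ 13 →
      (∀ x ∈ C1, x ∉ C2 → ∀ y ∈ C2, y ∉ C1 → ¬ G.Adj x y) → (∃ x ∈ C1, x ∉ C2) →
      (A.filter fun v => v ∉ C2).Nonempty := by
    rintro C1 C2 h1 h2 h3 ⟨x, x1, x2⟩
    rcases ((mH x).1 ((h1 x).2 (Or.inl x1))).2 with h | h
    · exact ⟨x, mem_filter.2 ⟨h, x2⟩⟩
    · obtain ⟨v, hv, hn⟩ := exists_mem_notMem_of_card_lt_card
        (show (C1 ∩ C2).card < (A.filter fun w => G.Adj x w).card from lt_of_le_of_lt h2 h)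
      rw [mem_filter] at hv
      refine ⟨v, mem_filter.2 ⟨hv.1, fun m => ?_⟩⟩
      exact h3 x x1 x2 v m (fun m' => hn (mem_inter.2 ⟨m', m⟩)) hv.2
  have n1 := side B1 B2 mB hc hS.2 hn.1
  have n2 := side B2 B1 (fun y => (mB y).trans or_comm) (by rwa [inter_comm])
    (fun x x1 x2 y y1 y2 h => hS.2 y y1 y2 x x1 x2 h.symm) hn.2
  obtain ⟨A1, e1⟩ : ∃ A1, A1 = A.filter fun v => v ∉ B2 := ⟨_, rfl⟩
  obtain ⟨A2, e2⟩ : ∃ A2, A2 = A.filter fun v => v ∉ B1 := ⟨_, rfl⟩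
  rw [← e1] at n1
  rw [← e2] at n2
  have m1 : ∀ v, v ∈ A1 ↔ v ∈ A ∧ v ∉ B2 := fun v => by rw [e1, mem_filter]
  have m2 : ∀ v, v ∈ A2 ↔ v ∈ A ∧ v ∉ B1 := fun v => by rw [e2, mem_filter]
  have s1 : A1 ⊆ A := fun v hv => ((m1 v).1 hv).1
  have s2 : A2 ⊆ A := fun v hv => ((m2 v).1 hv).1
  have dj : Disjoint A1 A2 := disjoint_left.2 fun v h1 h2 =>
    ((mB v).1 (AH (s1 h1))).elim ((m2 v).1 h2).2 ((m1 v).1 h1).2
  have big : ∀ C D : Finset V, C ⊆ A → D ⊆ A → Disjoint C D → C.Nonempty → D.Nonempty →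
      338 < bw G K C := by
    intro C D h1 h2 h3 h4 h5
    by_contra hc
    have h6 := hmin C (mem_filter.2 ⟨mem_powerset.2 (h1.trans a0), h4, not_lt.1 hc⟩)
    have h7 := card_le_card (union_subset h1 h2)
    rw [card_union_of_disjoint h3] at h7
    have := h5.card_pos
    omega
  have w1 := big A1 A2 s1 s2 dj n1 n2
  have w2 := big A2 A1 s2 s1 dj.symm n2 n1
  have pv : ∀ y ∈ K, cw G A1 y + cw G A2 y ≤ cw G A y + if y ∈ B1 ∩ B2 then 26 else 0 := by
    intro y hy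
    have d1 := dg_add (G := G) s1 s2 dj y
    have z2 : y ∈ B1 → y ∉ B2 → dg G A2 y = 0 := fun h1 h2 => dg_zero fun v hv =>
      hS.2 y h1 h2 v (((mB v).1 (AH (s2 hv))).resolve_left ((m2 v).1 hv).2) ((m2 v).1 hv).2
    have z1 : y ∈ B2 → y ∉ B1 → dg G A1 y = 0 := fun h1 h2 => dg_zero fun v hv ha =>
      hS.2 v (((mB v).1 (AH (s1 hv))).resolve_right ((m1 v).1 hv).2) ((m1 v).1 hv).2 y h1 h2 ha.symm
    have t1 := m1 y
    have t2 := m2 y
    have t3 := mH y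
    have t4 := mB y
    unfold cw
    simp only [mem_inter]
    by_cases b1 : y ∈ B1 <;> by_cases b2 : y ∈ B2 <;> by_cases b3 : y ∈ A
    · simp only [t1, t2, b1, b2, b3]
      simp
      omega
    · simp only [t1, t2, b1, b2, b3]
      simp
      omega
    · simp [t1, t2, b1, b2, b3, z2 b1 b2]
    · simp only [t1, t2, b1, b2, b3, z2 b1 b2]
      simp
      omega
    · simp [t1, t2, b1, b2, b3, z1 b2 b1]
    · simp only [t1, t2, b1, b2, b3, z1 b2 b1]
      simp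
      omega
    · exact ((t4.1 (AH b3)).elim b1 b2).elim
    · have : ¬ 13 < dg G A y := fun h => (t4.1 (t3.2 ⟨hy, Or.inr h⟩)).elim b1 b2
      simp only [t1, t2, b1, b2, b3]
      simp
      omega
  have h9 := sum_le_sum pv
  rw [sum_add_distrib, sum_add_distrib, ← sum_filter, sum_const, smul_eq_mul] at h9
  have h10 : (K.filter fun y => y ∈ B1 ∩ B2).card ≤ 13 :=
    (card_le_card fun y hy => (mem_filter.1 hy).2).trans hc
  unfold bw at w1 w2 aw
  omega

end Pool.Agent.Lib.MP_0a7691_co.CS
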