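import Pool.Agent.Lib.MP_0a7691_co.CS.Base
import Pool.Agent.Lib.MP_c13936_co.Main

/-! Knitted vertex sets, from rooted clique minors. -/

namespace Pool.Agent.Lib.MP_0a7691_co.CS

open SimpleGraph Finset
open scoped Classical
open Pool.Agent.Lib.MP_c13936_co (Step Conn Touch Sep arcs PreModel RootedModel CliqueModel)

variable {V : Type*} [Fintype V] {G : SimpleGraph V} {a k : ℕ}

/-- The number of neighbours of `v` in `A`. -/
noncomputable def dg (G : SimpleGraph V) (A : Finset V) (v : V) : ℕ :=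
  (A.filter fun w => G.Adj v w).card

/-- Any fourteen vertices of `H` root a clique minor inside `H`. -/
def Knit (G : SimpleGraph V) (H : Finset V) : Prop :=
  ∀ Z : List V, Z.length ≤ 14 → (∀ z ∈ Z, z ∈ H) → ∃ own : V → V, (∀ z ∈ Z, own z = z) ∧
    ∀ x ∈ Z, ∀ y ∈ Z, ∃ T : G.Walk x y, T.IsPath ∧
      ∀ v ∈ T.support, v ∈ H ∧ (own v = x ∨ own v = y)

omit [Fintype V] in
theorem walk_of_rtg {X : Finset V} {x y : V} (hx : x ∈ X)
    (h : Relation.ReflTransGen (Step G X) x y) : ∃ p : G.Walk x y, ∀ v ∈ p.support, v ∈ X := by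
  induction h with
  | refl => exact ⟨Walk.nil, by simpa using hx⟩
  | tail _ huv ih =>
    obtain ⟨p, hp⟩ := ih
    refine ⟨p.concat huv.1, fun w hw => ?_⟩
    rw [Walk.support_concat, List.mem_append, List.mem_singleton] at hw
    rcases hw with hw | rfl
    · exact hp w hw
    · exact huv.2.2

omit [Fintype V] in
theorem path_of_walk {D : V → Prop} {x y : V} (h : ∃ p : G.Walk x y, ∀ v ∈ p.support, D v) :
    ∃ p : G.Walk x y, p.IsPath ∧ ∀ v ∈ p.support, D v := by
  obtain ⟨p, hp⟩ := h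
  exact ⟨p.bypass, p.bypass_isPath, fun v hv => hp v (p.support_bypass_subset_support hv)⟩

omit [Fintype V] in
theorem dg_le (A : Finset V) (v : V) : dg G A v ≤ A.card := card_filter_le _ _

omit [Fintype V] in
theorem knit_of {H A : Finset V} (hA : A ⊆ H) (hne : A.Nonempty)
    (hd : ∀ v ∈ A, 4872 ≤ dg G A v)
    (hs : ∀ B1 B2, Sep G H B1 B2 → (B1 ∩ B2).card ≤ 13 → B1 ⊆ B2 ∨ B2 ⊆ B1) : Knit G H := by
  have h1 : 2 * 2436 * A.card ≤ (arcs G A).card := by
    rw [card_eq_sum_card_fiberwise (f := Prod.fst) (s := arcs G A) (t := A)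
      fun p hp => (MP_c13936_co.mem_arcs.1 (mem_coe.1 hp)).1, mul_comm, ← smul_eq_mul]
    refine card_nsmul_le_sum _ _ _ fun v hv => (hd v hv).trans ?_
    refine card_le_card_of_injOn (fun w => (v, w)) (fun w hw => ?_) fun w _ w' _ h => ?_
    · rw [mem_coe, mem_filter] at hw
      exact mem_coe.2 (mem_filter.2 ⟨MP_c13936_co.mem_arcs.2 ⟨hv, hw.1, hw.2⟩, rfl⟩)
    · exact congrArg Prod.snd h
  obtain ⟨β, b1, b2⟩ := MP_c13936_co.dense (N := 2 * 14) (d := 2436) (by norm_num) (by norm_num)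
    _ G A rfl hne h1
  have h14 : 14 ≤ H.card := by
    obtain ⟨v, hv⟩ := hne
    have := hd v hv
    have := dg_le (G := G) A v
    have := card_le_card hA
    omega
  intro Z hZ hH
  obtain ⟨Y, y1, y2, y3⟩ := exists_subsuperset_card_eq (s := Z.toFinset) (t := H) (n := 14)
    (fun z hz => hH z (List.mem_toFinset.1 hz)) ((List.toFinset_card_le Z).trans hZ) h14
  obtain ⟨γ, g1, g2⟩ := MP_c13936_co.rooted 14 _ G H Y β rfl y2 y3
    ⟨fun i => (b1 i).1.trans hA, fun i => (b1 i).2.1, fun i j h => (b2 i j h).1,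
      fun i => Or.inl (b1 i).2.2, fun i j h => Or.inr (b2 i j h).2⟩ (by
    rintro B1 B2 hS hY ⟨i, hi⟩
    by_contra hc
    rcases hs B1 B2 hS (by omega) with h | h
    · rw [inter_eq_left.2 h] at hc
      exact hc (y3 ▸ card_le_card hY)
    · obtain ⟨v, hv⟩ := (b1 i).2.1
      have hn := disjoint_left.1 hi hv
      exact hn (h (hS.mem_right (hA ((b1 i).1 hv)) hn)))
  have ow : ∃ own : V → V, ∀ z ∈ Y, ∀ v ∈ γ z, own v = z := by
    refine ⟨fun v => if h : ∃ z ∈ Y, v ∈ γ z then h.choose else v, fun z hz v hv => ?_⟩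
    have h : ∃ z ∈ Y, v ∈ γ z := ⟨z, hz, hv⟩
    simp only [dif_pos h]
    by_contra hc
    exact disjoint_left.1 (g2 _ h.choose_spec.1 z hz hc).1 h.choose_spec.2 hv
  obtain ⟨own, ho⟩ := ow
  have mY : ∀ z ∈ Z, z ∈ Y := fun z hz => y1 (List.mem_toFinset.2 hz)
  refine ⟨own, fun z hz => ho z (mY z hz) z (g1 z (mY z hz)).1, fun x hx y hy => ?_⟩
  have gx := g1 x (mY x hx)
  have gy := g1 y (mY y hy)
  have cn : Conn G (γ x ∪ γ y) := by
    by_cases e : x = y
    · rw [← e, union_self]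
      exact gx.2.2
    · exact gx.2.2.union_touch gy.2.2 (g2 x (mY x hx) y (mY y hy) e).2
  refine path_of_walk ?_
  obtain ⟨p, hp⟩ := walk_of_rtg (mem_union_left _ gx.1)
    (cn x (mem_union_left _ gx.1) y (mem_union_right _ gy.1))
  refine ⟨p, fun v hv => ?_⟩
  rcases mem_union.1 (hp v hv) with h | h
  · exact ⟨gx.2.1 h, Or.inl (ho x (mY x hx) v h)⟩
  · exact ⟨gy.2.1 h, Or.inr (ho y (mY y hy) v h)⟩

theorem Con.knit (h : Con G k) (hk : 4872 ≤ k) : Knit G univ := by
  have hne : (univ : Finset V).Nonempty := card_pos.1 (by have := h.1; rw [card_univ]; omega)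
  refine knit_of Subset.rfl hne (fun v _ => hk.trans (h.deg v)) fun B1 B2 hS hc => ?_
  by_contra hn
  rw [not_or, not_subset, not_subset] at hn
  obtain ⟨⟨x, x1, x2⟩, y, y2, y1⟩ := hn
  obtain ⟨p, hp⟩ := h.2 (B1 ∩ B2) (by omega) x (fun m => x2 (mem_inter.1 m).2) y
    (fun m => y1 (mem_inter.1 m).1)
  have key : ∀ {u w : V} (q : G.Walk u w), (∀ v ∈ q.support, v ∉ B1 ∩ B2) → u ∈ B1 → w ∈ B1 := by
    intro u w q
    induction q with
    | nil => exact fun _ h => h
    | @cons u z w huz q ih =>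
      intro hq hu
      refine ih (fun v hv => hq v (by simp [hv])) ?_
      by_contra hz
      exact hS.2 u hu (fun m => hq u (by simp) (mem_inter.2 ⟨hu, m⟩)) z
        (hS.mem_right (mem_univ z) hz) hz huz
  exact y1 (key p hp x1)

/-- `v` has a neighbour in `A`. -/
def Nb (G : SimpleGraph V) (A : Finset V) (v : V) : Prop := ∃ z ∈ A, G.Adj z v

/-- Attachments of a set whose neighbours lie in `A`, `X` or `U`. -/
theorem Con.attach (h : Con G k) {A X : Finset V} {U : List V} (hne : A.Nonempty)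
    (hU : ∀ v ∈ A, v ∉ U) (hN : ∀ v ∈ A, ∀ w, G.Adj v w → w ∈ A ∨ w ∈ X ∨ w ∈ U) :
    k ≤ X.card + (U.toFinset.filter (Nb G A)).card ∨ ∀ v ∈ U, Nb G A v := by
  by_contra hc
  rw [not_or, not_le] at hc
  obtain ⟨hc1, hc2⟩ := hc
  push Not at hc2
  obtain ⟨y, hy, hna⟩ := hc2
  obtain ⟨x, hx⟩ := hne
  have c1 : (((X \ A) \ U.toFinset) ∪ U.toFinset.filter (Nb G A)).card < k := by
    refine lt_of_le_of_lt ((card_union_le _ _).trans (Nat.add_le_add_right ?_ _)) hc1
    exact card_le_card (sdiff_subset.trans sdiff_subset)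
  obtain ⟨p, hp⟩ := h.2 _ c1 x (by
      simp only [mem_union, mem_sdiff, mem_filter, List.mem_toFinset]
      have := hU x hx
      tauto) y (by
      simp only [mem_union, mem_sdiff, mem_filter, List.mem_toFinset]
      rintro (h | ⟨-, h⟩)
      · exact h.2 hy
      · exact hna h)
  simp only [mem_union, mem_sdiff, mem_filter, List.mem_toFinset] at hp
  have key : ∀ {u w : V} (q : G.Walk u w), (∀ v ∈ q.support,
      ¬ (((v ∈ X ∧ v ∉ A) ∧ v ∉ U) ∨ (v ∈ U ∧ Nb G A v))) → u ∈ A → w ∈ A := by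
    intro u w q
    induction q with
    | nil => exact fun _ h => h
    | @cons u z w huz q ih =>
      intro hq hu
      refine ih (fun v hv => hq v (by simp [hv])) ?_
      by_contra hz
      have h1 := hq z (by simp)
      by_cases h3 : z ∈ U
      · exact h1 (Or.inr ⟨h3, u, hu, huz⟩)
      · exact h1 (Or.inl ⟨⟨((hN u hu z huz).resolve_left hz).resolve_right h3, hz⟩, h3⟩)
  exact hU y (key p hp hx) hy

end Pool.Agent.Lib.MP_0a7691_co.CS
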