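import Pool.Agent.Lib.MP_0a7691_co.CS.Step

/-! A weight that vanishes on the Hamilton cycles vanishes on all cycles. -/

namespace Pool.Agent.Lib.MP_0a7691_co.CS

open SimpleGraph Finset
open scoped Classical

variable {V : Type*} [Fintype V] {G : SimpleGraph V} {a k : ℕ} {φ : Sym2 V → ZMod 2}
  {t : V → ZMod 2}

theorem long_all (hi : Ind G a) (hc : Con G k) (hk : a + 5300 ≤ k) (hv : Van G φ)
    (ht : InsVal G φ t) : Long G φ t (∑ v, t v) 2 := by
  have key : ∀ j m, 2 ≤ m → Fintype.card V ≤ m + j → Long G φ t (∑ v, t v) m := by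
    intro j
    induction j with
    | zero =>
      intro m _ h x y q hq _ hl
      have := hq.length_le_card
      omega
    | succ j ih =>
      intro m h2 h x y q hq ha hl
      by_cases hall : ∀ v, v ∈ q.support
      · have e1 := hv x y q ((Walk.isPath_def _).2 hq) ha hall
        have e2 : (q.support.map t).sum = ∑ v, t v := by
          rw [← List.sum_toFinset t hq]
          exact sum_congr (eq_univ_of_forall fun v => List.mem_toFinset.2 (hall v)) fun _ _ => rfl
        rw [ps, e2]
        linear_combination e1
      · push Not at hall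
        obtain ⟨v0, hv0⟩ := hall
        exact (ih (m + 1) (by omega) (by omega)).step hi hc hk ht q hq ha (by omega) hl hv0
  exact key (Fintype.card V) 2 le_rfl (Nat.le_add_left _ _)

theorem t_adj (hc : Con G k) (hk : 4872 ≤ k) (hL : Long G φ t 0 2) {x z : V} (h : G.Adj x z) :
    t x = t z := by
  have dx : 14 ≤ dg G univ x := le_trans (by omega) (hc.deg x)
  have dz : 14 ≤ dg G univ z := le_trans (by omega) (hc.deg z)
  have N0 : [x, z].Nodup := by simp [h.ne]
  obtain ⟨p, -, hp, N1⟩ := fresh dx (by simp) N0
  obtain ⟨p', -, hp', N2⟩ := fresh dz (by simp) N1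
  obtain ⟨q, -, hq, N3⟩ := fresh dx (by simp) N2
  obtain ⟨q', -, hq', N4⟩ := fresh dz (by simp) N3
  obtain ⟨own, o1, o2⟩ := hc.knit hk [q', q, p', p, x, z] (by simp) (by simp)
  have t0 : Tag own [x, z] [x, z] := ⟨N0, fun v hv => by
    rw [o1 v (List.mem_append_right [q', q, p', p] hv)]
    exact hv⟩
  obtain ⟨P, t1, s1⟩ := t0.cons2 (fun v _ => mem_univ v) N2 (o2 p (by simp) p' (by simp))
  obtain ⟨Q, t2, -⟩ := t1.cons2 s1 N4 (o2 q (by simp) q' (by simp))
  have nd := List.nodup_iff_count_le_one.1 t2.1
  have key : ∀ l : List V, (∀ v, l.count v ≤ (Q.support ++ (P.support ++ [x, z])).count v) →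
      l.Nodup := fun l h => List.nodup_iff_count_le_one.2 fun v => (h v).trans (nd v)
  have l1 := List.length_pos_iff.2 P.support_ne_nil
  have l2 := List.length_pos_iff.2 Q.support_ne_nil
  have f1 := hL _ _ (Walk.cons hp (jn P hp'.symm Walk.nil)) (key _ fun v => by
    simp only [support_jn, List.count_append, Walk.support_cons, Walk.support_nil,
      List.count_cons, List.count_nil]
    omega) h.symm (by
    simp only [support_jn, List.length_append, Walk.support_cons, Walk.support_nil,
      List.length_cons]
    omega)
  have f2 := hL _ _ (Walk.cons hq (jn Q hq'.symm Walk.nil)) (key _ fun v => by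
    simp only [support_jn, List.count_append, Walk.support_cons, Walk.support_nil,
      List.count_cons, List.count_nil]
    omega) h.symm (by
    simp only [support_jn, List.length_append, Walk.support_cons, Walk.support_nil,
      List.length_cons]
    omega)
  have f3 := hL _ _ (Walk.cons hp (jn P hp'.symm (Walk.cons hq' Q.reverse))) (key _ fun v => by
    simp only [support_jn, List.count_append, Walk.support_cons, Walk.support_reverse,
      List.count_cons, List.count_nil, List.count_reverse]
    omega) hq.symm (by
    simp only [support_jn, List.length_append, Walk.support_cons, List.length_cons]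
    omega)
  simp only [ps_jn, ps_cons, ps_nil, ps_reverse] at f1 f2 f3
  rw [sw φ z q', sw φ q x] at f3
  linear_combination (norm := (ring_nf; reduce_mod_char)) f1 + f2 + f3

theorem all_zero (hi : Ind G a) (hc : Con G k) (hk : a + 5300 ≤ k) (hv : Van G φ)
    (hodd : Odd (Fintype.card V)) {x y : V} (q : G.Walk x y) (hq : q.IsPath) (h : G.Adj y x)
    (h3 : 2 < q.support.length) : ph φ q + φ s(y, x) = 0 := by
  obtain ⟨t, t1, t2⟩ := exists_t hi hc hk hv
  have hL := long_all hi hc hk hv t2
  have z : ∑ v, t v = 0 := by
    obtain ⟨p, -, r, -, xp, xr, pr⟩ := hc.tri hi x (F := ∅) (by rw [card_empty]; omega)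
    have e1 := hL _ _ (Walk.cons xp (Walk.cons pr Walk.nil)) (by simp [xp.ne, xr.ne, pr.ne]) xr.symm
      (by simp)
    have e2 := t1 x p r xp xr pr
    have e3 := t1 p r x pr xp.symm xr.symm
    have e4 := t1 r x p xr.symm pr.symm xp
    simp only [ps_cons, ps_nil] at e1
    rw [sw φ p x] at e3
    rw [sw φ r p] at e4
    rw [sw φ x r] at e2
    rw [← e1]
    linear_combination (norm := (ring_nf; reduce_mod_char)) e2 + e3 + e4
  rw [z] at hL
  have cst : ∀ v, t v = t x := by
    intro v
    obtain ⟨p, -⟩ := hc.2 ∅ (by rw [card_empty]; omega) v (notMem_empty v) x (notMem_empty x)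
    have key : ∀ {u w : V} (p : G.Walk u w), t u = t w := by
      intro u w p
      induction p with
      | nil => rfl
      | cons h _ ih => exact (t_adj hc (by omega) hL h).trans ih
    exact key p
  have t0 : t x = 0 := by
    rw [sum_congr rfl fun v _ => cst v, sum_const, card_univ, nsmul_eq_mul,
      (ZMod.natCast_eq_one_iff_odd).2 hodd, one_mul] at z
    exact z
  have e := hL x y q hq.support_nodup h h3
  rw [ps, List.sum_eq_zero (fun c hc => by
    obtain ⟨v, -, rfl⟩ := List.mem_map.1 hc
    exact (cst v).trans t0), add_zero] at e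
  exact e

theorem walks_zero (φ : Sym2 V → ZMod 2) (hodd : Odd (Fintype.card V))
    (h1 : k < Fintype.card V) (h2 : ∀ S : Finset V, S.card < k → (G.induce {v | v ∉ S}).Connected)
    (hk : G.indepNum + 5300 ≤ k)
    (hH : ∀ (u : V) (p : G.Walk u u), p.IsCycle → p.length = Fintype.card V →
      (p.edges.map φ).sum = 0)
    (u : V) (p : G.Walk u u) (hp : p.IsCycle) : (p.edges.map φ).sum = 0 := by
  have hi : Ind G G.indepNum := by
    intro S hS
    by_contra hn
    push Not at hn
    have : G.IsIndepSet (S : Set V) := fun x hx y hy _ => hn x hx y hy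
    exact absurd this.card_le_indepNum (not_le.2 hS)
  have hc : Con G k := by
    refine ⟨h1, fun F hF x hx y hy => ?_⟩
    obtain ⟨w⟩ := (h2 F hF).preconnected ⟨x, hx⟩ ⟨y, hy⟩
    have key : ∀ {u v : {v | v ∉ F}} (_ : (G.induce {v | v ∉ F}).Walk u v),
        ∃ p : G.Walk u.1 v.1, ∀ z ∈ p.support, z ∉ F := by
      intro u v q
      induction q with
      | @nil u => exact ⟨Walk.nil, fun z hz => (List.mem_singleton.1 hz) ▸ u.2⟩
      | @cons u _ _ h _ ih =>
        obtain ⟨p, hp⟩ := ih
        refine ⟨Walk.cons h p, fun z hz => ?_⟩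
        rw [Walk.support_cons, List.mem_cons] at hz
        rcases hz with rfl | hz
        · exact u.2
        · exact hp z hz
    exact key w
  have hv : Van G φ := by
    intro x y r hr ha hall
    have hlen : r.support.length = Fintype.card V := by
      rw [← List.toFinset_card_of_nodup hr.support_nodup, ← card_univ]
      exact congrArg card (eq_univ_of_forall fun v => List.mem_toFinset.2 (hall v))
    rw [Walk.length_support] at hlen
    have hcy : (Walk.cons ha r).IsCycle := by
      rw [Walk.isCycle_iff_isPath_tail_and_le_length]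
      exact ⟨by simpa using hr, by rw [Walk.length_cons]; omega⟩
    have := hH y _ hcy (by rw [Walk.length_cons]; exact hlen)
    rw [Walk.edges_cons, List.map_cons, List.sum_cons, add_comm] at this
    exact this
  have h3 := hp.three_le_length
  cases p with
  | nil => simp
  | cons h q =>
    have := all_zero hi hc hk hv hodd q ((Walk.cons_isCycle_iff q h).1 hp).1 h (by
      rw [Walk.length_cons] at h3
      rw [Walk.length_support]
      omega)
    rw [Walk.edges_cons, List.map_cons, List.sum_cons, add_comm]
    exact this

end Pool.Agent.Lib.MP_0a7691_co.CS
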