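import Pool.Agent.Lib.MP_0a7691_co.CS.Ins

/-! Moves that make a cycle longer, and their values. -/

namespace Pool.Agent.Lib.MP_0a7691_co.CS

open SimpleGraph Finset
open scoped Classical

variable {V : Type*} {G : SimpleGraph V} {a m : ℕ} {φ : Sym2 V → ZMod 2} {t : V → ZMod 2}
  {T : ZMod 2}

/-- The weight of a walk together with the weights of its vertices. -/
def ps (φ : Sym2 V → ZMod 2) (t : V → ZMod 2) {x y : V} (p : G.Walk x y) : ZMod 2 :=
  ph φ p + (p.support.map t).sum

theorem ps_nil (x : V) : ps φ t (Walk.nil : G.Walk x x) = t x := by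
  simp [ps, ph]

theorem ps_cons {x y z : V} (h : G.Adj x y) (p : G.Walk y z) :
    ps φ t (Walk.cons h p) = t x + φ s(x, y) + ps φ t p := by
  simp only [ps, ph_cons, Walk.support_cons, List.map_cons, List.sum_cons]
  ring

theorem ps_jn {x u w y : V} (p : G.Walk x u) (h : G.Adj u w) (q : G.Walk w y) :
    ps φ t (jn p h q) = ps φ t p + φ s(u, w) + ps φ t q := by
  simp only [ps, ph_jn, support_jn, List.map_append, List.sum_append]
  ring

theorem ps_reverse {x y : V} (p : G.Walk x y) : ps φ t p.reverse = ps φ t p := by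
  simp [ps, ph_reverse, List.sum_reverse]

/-- All cycles with more than `m` vertices have the value `T`. -/
def Long (G : SimpleGraph V) (φ : Sym2 V → ZMod 2) (t : V → ZMod 2) (T : ZMod 2) (m : ℕ) : Prop :=
  ∀ (x y : V) (q : G.Walk x y), q.support.Nodup → G.Adj y x → m < q.support.length →
    ps φ t q + φ s(y, x) = T

theorem Ind.normal (hi : Ind G a) {x y d : V} {q : G.Walk x y} (hq : q.support.Nodup)
    (h : G.Adj y x) {A : V → Prop} (hd : d ∉ q.support) (hA : ∀ v, G.Adj d v → A v)
    (hc : a + 1 ≤ (q.support.toFinset.filter A).card ∨ ∀ v ∈ q.support, A v) :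
    ∃ (u u' w w' : V) (s1 : G.Walk w' u) (s2 : G.Walk u' w), G.Adj u u' ∧ G.Adj w w' ∧
      G.Adj u' w' ∧ A u ∧ A w ∧ (s1.support ++ s2.support).Perm q.support ∧
      ps φ t q + φ s(y, x) = ps φ t s1 + ps φ t s2 + φ s(u, u') + φ s(w, w') := by
  have typB : ∀ {u u' w w' : V} (uu : G.Adj u u') (ww : G.Adj w w') (q1 : G.Walk x u)
      (q2 : G.Walk u' w) (q3 : G.Walk w' y), q = jn q1 uu (jn q2 ww q3) →
      ((jn q3 h q1).support ++ q2.support).Perm q.support ∧
      ps φ t q + φ s(y, x) = ps φ t (jn q3 h q1) + ps φ t q2 + φ s(u, u') + φ s(w, w') := by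
    rintro u u' w w' uu ww q1 q2 q3 rfl
    refine ⟨?_, ?_⟩
    · rw [List.perm_iff_count]
      intro v
      simp only [support_jn, List.count_append]
      omega
    · simp only [ps_jn]
      ring
  obtain ⟨e, he, e', he', hc⟩ := hi.conf (l := q.darts) (U := q.support) (X := [y]) (A := A) (d := d)
    (by rw [Walk.map_snd_darts]; exact hq.tail) (by
      cases q with
      | nil => exact absurd rfl h.ne
      | cons h r => simp) (fun e he =>
      ⟨q.dart_fst_mem_support_of_mem_darts he, q.dart_snd_mem_support_of_mem_darts he⟩) (by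
      intro v hv
      rw [← q.map_fst_darts_append, List.mem_append] at hv
      exact hv.symm) hd hA hc
  rcases hc with ⟨rfl, h1, h2⟩ | ⟨h1, h2, h3, h4⟩
  · obtain ⟨q1, q2, hq'⟩ := split1 q he
    have hq2 : q = jn q1 e.adj q2 := hq'
    obtain ⟨u', uu, s2, hs⟩ := Walk.exists_eq_cons_of_ne e.adj.ne' (jn q2 h q1)
    have e1 := congrArg Walk.support hs
    have e2 := congrArg (ps φ t) hs
    refine ⟨_, u', _, _, Walk.nil, s2, uu, e.adj, uu.symm, h2, h1, ?_, ?_⟩
    · rw [Walk.support_cons, support_jn] at e1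
      rw [hq2, support_jn, Walk.support_nil, List.singleton_append, ← e1]
      exact List.perm_append_comm
    · rw [ps_cons, ps_jn] at e2
      rw [hq2, ps_jn, ps_nil]
      linear_combination e2
  · rcases split2 q he he' h1 with ⟨q1, q2, q3, hq'⟩ | ⟨q1, q2, q3, hq'⟩
    · have := typB _ _ q1 q2 q3 hq'
      exact ⟨_, _, _, _, _, _, e.adj, e'.adj, h4, h2, h3, this⟩
    · have := typB _ _ q1 q2 q3 hq'
      exact ⟨_, _, _, _, _, _, e'.adj, e.adj, h4.symm, h3, h2, this⟩

theorem Long.move (hL : Long G φ t T m) {u u' w w' z z' : V} (s1 : G.Walk w' u) (s2 : G.Walk u' w)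
    (uw : G.Adj u' w') (P : G.Walk z z') (uz : G.Adj u z) (zw : G.Adj z' w)
    (nd : (s1.support ++ s2.support ++ P.support).Nodup)
    (ln : m ≤ (s1.support ++ s2.support).length) :
    ps φ t s1 + ps φ t s2 + φ s(u', w') + φ s(u, z) + ps φ t P + φ s(z', w) = T := by
  have pm : (jn s1 uz (jn P zw s2.reverse)).support.Perm (s1.support ++ s2.support ++ P.support) := by
    rw [List.perm_iff_count]
    intro v
    simp only [support_jn, List.count_append, Walk.support_reverse, List.count_reverse]
    omega
  have := hL _ _ (jn s1 uz (jn P zw s2.reverse)) (pm.nodup_iff.2 nd) uw (by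
    have := List.length_pos_iff.2 P.support_ne_nil
    rw [pm.length_eq, List.length_append]
    omega)
  simp only [ps_jn, ps_reverse] at this
  linear_combination this

/-- The values of the insertions of one vertex. -/
def InsVal (G : SimpleGraph V) (φ : Sym2 V → ZMod 2) (t : V → ZMod 2) : Prop :=
  ∀ d u u' w w', G.Adj d u → G.Adj d w → G.Adj u u' → G.Adj w w' → G.Adj u' w' →
    u' ≠ d → w' ≠ d → u ≠ w →
    φ s(d, u) + φ s(u, u') + φ s(u', w') + φ s(w, w') + φ s(d, w) = t d

theorem Long.single (hL : Long G φ t T m) (ht : InsVal G φ t) {u u' w w' d : V}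
    (s1 : G.Walk w' u) (s2 : G.Walk u' w) (uu : G.Adj u u') (ww : G.Adj w w') (uw : G.Adj u' w')
    (du : G.Adj d u) (dw : G.Adj d w) (nd : (s1.support ++ s2.support).Nodup)
    (hd : d ∉ s1.support ++ s2.support) (ln : m ≤ (s1.support ++ s2.support).length) :
    ps φ t s1 + ps φ t s2 + φ s(u, u') + φ s(w, w') = T := by
  have e1 := hL.move s1 s2 uw Walk.nil du.symm dw (List.nodup_append.2 ⟨nd, by simp, by
    rintro x hx y hy rfl
    rw [Walk.support_nil, List.mem_singleton] at hy
    exact hd (hy ▸ hx)⟩) ln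
  have e2 := ht d u u' w w' du dw uu ww uw
    (fun e => hd (List.mem_append_right _ (e ▸ s2.start_mem_support)))
    (fun e => hd (List.mem_append_left _ (e ▸ s1.start_mem_support)))
    ((List.nodup_append.1 nd).2.2 u s1.end_mem_support w s2.end_mem_support)
  rw [ps_nil, sw φ u d] at e1
  linear_combination (norm := (ring_nf; reduce_mod_char)) e1 + e2

theorem Long.par (hL : Long G φ t T m) {u u' w w' z z' : V} (s1 s1' : G.Walk w' u)
    (s2 s2' : G.Walk u' w) (uu : G.Adj u u') (ww : G.Adj w w') (uw : G.Adj u' w')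
    (P : G.Walk z z') (uz : G.Adj u z) (zw : G.Adj z' w) {L : List V} (hne : L ≠ [])
    (nd : (s1.support ++ s2.support ++ (P.support ++ L)).Nodup)
    (pm : (s1'.support ++ s2'.support).Perm (s1.support ++ s2.support ++ L))
    (ln : m ≤ (s1.support ++ s2.support).length) :
    ps φ t s1 + ps φ t s2 + φ s(u, u') + φ s(w, w') = T := by
  have l1 := pm.length_eq
  have l2 := List.length_pos_iff.2 hne
  rw [List.length_append (as := s1.support ++ s2.support)] at l1
  have n1 : (s1'.support ++ s2'.support ++ P.support).Nodup := by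
    rw [List.nodup_iff_count_le_one] at nd ⊢
    intro v
    have h1 := nd v
    have h2 := pm.count_eq v
    simp only [List.count_append] at h1 h2 ⊢
    omega
  have e1 := hL.move s1 s2 uw P uz zw (by
    rw [← List.append_assoc] at nd
    exact nd.of_append_left) ln
  have e2 := hL.move s1' s2' uw P uz zw n1 (by omega)
  have e3 := hL _ _ (jn s1' uu s2') (by rw [support_jn]; exact n1.of_append_left) ww
    (by rw [support_jn]; omega)
  rw [ps_jn] at e3
  linear_combination (norm := (ring_nf; reduce_mod_char)) e1 + e2 + e3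

theorem Long.cross (hL : Long G φ t T m) {u u' w w' x x' y y' zu zw zx zy : V}
    {a1 a2 b1 b2 c1 c2 d1 d2 e1 e2 : V} (r1 : G.Walk w' x) (r2 : G.Walk x' u) (r3 : G.Walk u' y)
    (r4 : G.Walk y' w) (uu : G.Adj u u') (ww : G.Adj w w') (xx : G.Adj x x') (yy : G.Adj y y')
    (uw : G.Adj u' w') (xy : G.Adj x' y') (hu : G.Adj zu u) (hw : G.Adj zw w) (hx : G.Adj zx x)
    (hy : G.Adj zy y) (A : G.Walk a1 a2) (B : G.Walk b1 b2) (C : G.Walk c1 c2) (D : G.Walk d1 d2)
    (E : G.Walk e1 e2) (ha : G.Adj zu a1) (ha' : G.Adj zx a2) (hb : G.Adj zx b1)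
    (hb' : G.Adj zw b2) (hc : G.Adj zu c1) (hc' : G.Adj zy c2) (hd : G.Adj zy d1)
    (hd' : G.Adj zw d2) (he : G.Adj zx e1) (he' : G.Adj zy e2)
    (nd : ((jn r1 xx r2).support ++ (jn r3 yy r4).support ++ (E.support ++ (D.support ++
      (C.support ++ (B.support ++ (A.support ++ [zu, zw, zx, zy])))))).Nodup)
    (ln : m ≤ ((jn r1 xx r2).support ++ (jn r3 yy r4).support).length) :
    ps φ t (jn r1 xx r2) + ps φ t (jn r3 yy r4) + φ s(u, u') + φ s(w, w') = T := by
  rw [List.nodup_iff_count_le_one] at nd
  have key : ∀ l : List V, (∀ v, l.count v ≤ ((jn r1 xx r2).support ++ (jn r3 yy r4).support ++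
      (E.support ++ (D.support ++ (C.support ++ (B.support ++ (A.support ++
      [zu, zw, zx, zy])))))).count v) → l.Nodup :=
    fun l h => List.nodup_iff_count_le_one.2 fun v => (h v).trans (nd v)
  have f1 := hL.move (jn r1 xx r2) (jn r3 yy r4) uw
    (Walk.cons ha (jn A ha'.symm (Walk.cons hb (jn B hb'.symm Walk.nil)))) hu.symm hw
    (key _ fun v => by
      simp only [support_jn, List.count_append, Walk.support_cons, Walk.support_nil,
        List.count_cons, List.count_nil]
      omega) ln
  have f2 := hL.move (jn r1 xx r2) (jn r3 yy r4) uw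
    (Walk.cons hc (jn C hc'.symm (Walk.cons hd (jn D hd'.symm Walk.nil)))) hu.symm hw
    (key _ fun v => by
      simp only [support_jn, List.count_append, Walk.support_cons, Walk.support_nil,
        List.count_cons, List.count_nil]
      omega) ln
  have f3 := hL.move (jn r1 xx r2) (jn r3 yy r4) uw
    (Walk.cons ha (jn A ha'.symm (Walk.cons he (jn E he'.symm (Walk.cons hd
      (jn D hd'.symm Walk.nil)))))) hu.symm hw
    (key _ fun v => by
      simp only [support_jn, List.count_append, Walk.support_cons, Walk.support_nil,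
        List.count_cons, List.count_nil]
      omega) ln
  have f4 := hL.move (jn r4 ww r1) (jn r2 uu r3) xy
    (Walk.cons he (jn E he'.symm Walk.nil)) hx.symm hy
    (key _ fun v => by
      simp only [support_jn, List.count_append, Walk.support_cons, Walk.support_nil,
        List.count_cons, List.count_nil]
      omega) (by
      simp only [support_jn, List.length_append] at ln ⊢
      omega)
  have f5 := hL _ _ (jn (jn r2.reverse xy r4) hw.symm (Walk.cons hb' (jn B.reverse hb.symm
      (Walk.cons hx (jn (jn r1.reverse uw.symm r3) hy.symm (Walk.cons hc'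
      (jn C.reverse hc.symm Walk.nil))))))) (key _ fun v => by
      simp only [support_jn, List.count_append, Walk.support_cons, Walk.support_nil,
        List.count_cons, List.count_nil, Walk.support_reverse, List.count_reverse]
      omega) hu (by
      simp only [support_jn, List.length_append, Walk.support_cons, List.length_cons,
        Walk.support_reverse, List.length_reverse] at ln ⊢
      omega)
  simp only [ps_jn, ps_cons, ps_nil, ps_reverse] at f1 f2 f3 f4 f5 ⊢
  rw [sw φ w zw, sw φ zw b2, sw φ b1 zx, sw φ zx x, sw φ w' u', sw φ y zy, sw φ zy c2,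
    sw φ c1 zu, sw φ zu u] at f5
  linear_combination (norm := (ring_nf; reduce_mod_char)) f1 + f2 + f3 + f4 + f5

end Pool.Agent.Lib.MP_0a7691_co.CS
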