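import Pool.Agent.Lib.MP_0a7691_co.CS.Iso

/-! Conflicting darts, cuts of a path, and first and last hits. -/

namespace Pool.Agent.Lib.MP_0a7691_co.CS

open SimpleGraph Finset
open scoped Classical

variable {V : Type*} {G : SimpleGraph V} {a : ℕ}

/-- Two walks joined by an edge. -/
def jn {x u w y : V} (p : G.Walk x u) (h : G.Adj u w) (q : G.Walk w y) : G.Walk x y :=
  p.append (Walk.cons h q)

theorem support_jn {x u w y : V} (p : G.Walk x u) (h : G.Adj u w) (q : G.Walk w y) :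
    (jn p h q).support = p.support ++ q.support := by
  simp [jn, Walk.support_append]

theorem edges_jn {x u w y : V} (p : G.Walk x u) (h : G.Adj u w) (q : G.Walk w y) :
    (jn p h q).edges = p.edges ++ s(u, w) :: q.edges := by
  simp [jn]

/-- One dart with both ends attached, or two darts with attached tails and adjacent heads. -/
def Conf (A : V → Prop) (e e' : G.Dart) : Prop :=
  (e = e' ∧ A e.fst ∧ A e.snd) ∨ (e ≠ e' ∧ A e.fst ∧ A e'.fst ∧ G.Adj e.snd e'.snd)

theorem Conf.symm {A : V → Prop} {e e' : G.Dart} (h : Conf A e e') : Conf A e' e := by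
  rcases h with ⟨rfl, h⟩ | ⟨h1, h2, h3, h4⟩
  · exact Or.inl ⟨rfl, h⟩
  · exact Or.inr ⟨h1.symm, h3, h2, h4.symm⟩

theorem Ind.conf (hi : Ind G a) {l : List G.Dart} {U X : List V} {A : V → Prop} {d : V}
    (hl : (l.map (·.snd)).Nodup) (hne : l ≠ []) (hU : ∀ e ∈ l, e.fst ∈ U ∧ e.snd ∈ U)
    (hX : ∀ v ∈ U, v ∈ X ∨ v ∈ l.map (·.fst)) (hd : d ∉ U) (hA : ∀ v, G.Adj d v → A v)
    (hc : a + X.length ≤ (U.toFinset.filter A).card ∨ ∀ v ∈ U, A v) :
    ∃ e ∈ l, ∃ e' ∈ l, Conf A e e' := by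
  rcases hc with hc | hc
  · have h3 : a ≤ (((l.map (·.fst)).toFinset).filter A).card := by
      have : U.toFinset.filter A ⊆ X.toFinset ∪ ((l.map (·.fst)).toFinset).filter A := by
        intro v hv
        rw [mem_filter, List.mem_toFinset] at hv
        rw [mem_union, mem_filter, List.mem_toFinset, List.mem_toFinset]
        exact (hX v hv.1).imp_right fun h => ⟨h, hv.2⟩
      have h4 := (card_le_card this).trans (card_union_le _ _)
      have h5 := List.toFinset_card_le X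
      omega
    have h2 : d ∉ l.map (·.snd) := by
      intro h
      obtain ⟨e, he, rfl⟩ := List.mem_map.1 h
      exact hd (hU e he).2
    rcases hi.pick hl h2 h3 with ⟨e, he, b1, b2⟩ | ⟨e, he, e', he', h⟩
    · exact ⟨e, he, e, he, Or.inl ⟨rfl, b1, hA _ b2⟩⟩
    · exact ⟨e, he, e', he', Or.inr h⟩
  · obtain ⟨e, he⟩ := List.exists_mem_of_ne_nil l hne
    exact ⟨e, he, e, he, Or.inl ⟨rfl, hc _ (hU e he).1, hc _ (hU e he).2⟩⟩

theorem Conf.cut {A : V → Prop} {x y : V} (q : G.Walk x y) {e e' : G.Dart} (h : Conf A e e')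
    (he : e ∈ q.darts) (he' : e' ∈ q.darts) :
    ∃ (u w : V) (q1 : G.Walk x u) (r : G.Walk w y), A u ∧ A w ∧
      (q1.support ++ r.support).Perm q.support ∧
      ∀ f ∈ q.edges, f ≠ e.edge → f ≠ e'.edge → f ∈ q1.edges ∨ f ∈ r.edges := by
  have typB : ∀ (e e' : G.Dart) (q1 : G.Walk x e.fst) (q2 : G.Walk e.snd e'.fst)
      (q3 : G.Walk e'.snd y), q = q1.append (Walk.cons e.adj (q2.append (Walk.cons e'.adj q3))) →
      G.Adj e.snd e'.snd → ∃ (r : G.Walk e'.fst y), (q1.support ++ r.support).Perm q.support ∧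
      ∀ f ∈ q.edges, f ≠ e.edge → f ≠ e'.edge → f ∈ q1.edges ∨ f ∈ r.edges := by
    intro e e' q1 q2 q3 hq ha
    refine ⟨jn q2.reverse ha q3, ?_, fun f hf h1 h2 => ?_⟩
    · rw [hq, List.perm_iff_count]
      intro v
      simp only [support_jn, Walk.support_append, Walk.support_cons, List.tail_cons,
        List.count_append, Walk.support_reverse, List.count_reverse]
    · rw [hq] at hf
      simp only [edges_jn, Walk.edges_append, Walk.edges_cons, List.mem_append, List.mem_cons,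
        Walk.edges_reverse, List.mem_reverse] at hf ⊢
      rcases hf with h | h | h | h | h
      · exact Or.inl h
      · exact absurd h h1
      · exact Or.inr (Or.inl h)
      · exact absurd h h2
      · exact Or.inr (Or.inr (Or.inr h))
  rcases h with ⟨rfl, h1, h2⟩ | ⟨h1, h2, h3, h4⟩
  · obtain ⟨q1, q2, rfl⟩ := split1 q he
    refine ⟨_, _, q1, q2, h1, h2, by simp [Walk.support_append], fun f hf h _ => ?_⟩
    simp only [Walk.edges_append, Walk.edges_cons, List.mem_append, List.mem_cons] at hf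
    rcases hf with h' | h' | h'
    · exact Or.inl h'
    · exact absurd h' h
    · exact Or.inr h'
  · rcases split2 q he he' h1 with ⟨q1, q2, q3, h⟩ | ⟨q1, q2, q3, h⟩
    · obtain ⟨r, r1, r2⟩ := typB e e' q1 q2 q3 h h4
      exact ⟨_, _, q1, r, h2, h3, r1, r2⟩
    · obtain ⟨r, r1, r2⟩ := typB e' e q1 q2 q3 h h4.symm
      exact ⟨_, _, q1, r, h3, h2, r1, fun f hf a b => r2 f hf b a⟩

theorem first_hit {D : V → Prop} {x y : V} (P : G.Walk x y) (h : ∃ v ∈ P.support, D v) :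
    ∃ (e : V) (P1 : G.Walk x e), D e ∧ ∀ v ∈ P1.support, v ∈ P.support ∧ (D v → v = e) := by
  induction P with
  | nil => exact ⟨_, Walk.nil, by simpa using h, by simp⟩
  | @cons x z y hxz q ih =>
    by_cases hx : D x
    · exact ⟨x, Walk.nil, hx, by simp⟩
    · obtain ⟨v, hv, hD⟩ := h
      rw [Walk.support_cons, List.mem_cons] at hv
      obtain ⟨e, P1, h1, h2⟩ := ih ⟨v, hv.resolve_left fun e => hx (e ▸ hD), hD⟩
      refine ⟨e, Walk.cons hxz P1, h1, fun w hw => ?_⟩
      rw [Walk.support_cons, List.mem_cons] at hw ⊢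
      rcases hw with rfl | hw
      · exact ⟨Or.inl rfl, fun h => absurd h hx⟩
      · exact ⟨Or.inr (h2 w hw).1, (h2 w hw).2⟩

theorem two_hits {D : V → Prop} {x y : V} (P : G.Walk x y) (h : ∃ v ∈ P.support, D v) :
    ∃ (e e' : V) (P1 : G.Walk x e) (P2 : G.Walk e' y), D e ∧ D e' ∧
      (∀ v ∈ P1.support, v ∈ P.support ∧ (D v → v = e)) ∧
      ∀ v ∈ P2.support, v ∈ P.support ∧ (D v → v = e') := by
  obtain ⟨e, P1, h1, h2⟩ := first_hit P h
  obtain ⟨e', P2, h3, h4⟩ := first_hit (D := D) P.reverse (by simpa using h)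
  exact ⟨e, e', P1, P2.reverse, h1, h3, h2, by simpa using h4⟩

theorem split_edge {x y p q : V} (pq : G.Adj p q) (R : G.Walk x y) (h : s(p, q) ∈ R.edges) :
    (∃ (R1 : G.Walk x p) (R2 : G.Walk q y), R = jn R1 pq R2) ∨
      ∃ (R1 : G.Walk x q) (R2 : G.Walk p y), R = jn R1 pq.symm R2 := by
  induction R with
  | nil => simp at h
  | cons hxz r ih =>
    rw [Walk.edges_cons, List.mem_cons, Sym2.eq_iff] at h
    rcases h with (⟨rfl, rfl⟩ | ⟨rfl, rfl⟩) | h
    · exact Or.inl ⟨Walk.nil, r, rfl⟩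
    · exact Or.inr ⟨Walk.nil, r, rfl⟩
    · rcases ih h with ⟨R1, R2, rfl⟩ | ⟨R1, R2, rfl⟩
      · exact Or.inl ⟨Walk.cons hxz R1, R2, rfl⟩
      · exact Or.inr ⟨Walk.cons hxz R1, R2, rfl⟩

theorem exists_longest {α : Type*} (S : α → Prop) (f : α → ℕ) (N : ℕ) (hb : ∀ x, S x → f x ≤ N)
    (h : ∃ x, S x) : ∃ x, S x ∧ ∀ y, S y → f y ≤ f x := by
  have ex : ∃ n, ∃ x, S x ∧ N - f x = n := by
    obtain ⟨x, hx⟩ := h
    exact ⟨_, x, hx, rfl⟩
  obtain ⟨x, hx, hn⟩ := Nat.find_spec ex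
  refine ⟨x, hx, fun y hy => ?_⟩
  have h1 := Nat.find_min' ex ⟨y, hy, rfl⟩
  have h2 := hb x hx
  have h3 := hb y hy
  omega

/-- A list without repeats whose entries are owned by members of `M`. -/
def Tag (own : V → V) (l M : List V) : Prop := l.Nodup ∧ ∀ v ∈ l, own v ∈ M

theorem Tag.append {own : V → V} {l l' M M' : List V} (h : Tag own l M) (h' : Tag own l' M')
    (hd : ∀ v ∈ M, v ∉ M') : Tag own (l ++ l') (M ++ M') := by
  refine ⟨List.nodup_append.2 ⟨h.1, h'.1, ?_⟩, fun v hv => ?_⟩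
  · rintro x hx y hy rfl
    exact hd _ (h.2 x hx) (h'.2 x hy)
  · rw [List.mem_append] at hv ⊢
    exact hv.imp (h.2 v) (h'.2 v)

end Pool.Agent.Lib.MP_0a7691_co.CS
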