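import Pool.Agent.Lib.MP_0a7691_co.CS.Pick

/-! A spanning pair of paths with a protected edge. -/

namespace Pool.Agent.Lib.MP_0a7691_co.CS

open SimpleGraph Finset
open scoped Classical

variable {V : Type*} [Fintype V] {G : SimpleGraph V} {a k : ℕ}

omit [Fintype V] in
/-- A cut of a path that keeps a given inner edge. -/
theorem Ind.cut_off (hi : Ind G a) {x y p q d : V} {R : G.Walk x y} (hR : R.IsPath) (hxy : x ≠ y)
    (hp : x ≠ p) (hq : x ≠ q) (hf : s(p, q) ∈ R.edges) {A : V → Prop} (hd : d ∉ R.support)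
    (hA : ∀ v, G.Adj d v → A v)
    (hc : a + 3 ≤ (R.support.toFinset.filter A).card ∨ ∀ v ∈ R.support, A v) :
    ∃ (u w : V) (q1 : G.Walk x u) (r : G.Walk w y), A u ∧ A w ∧
      (q1.support ++ r.support).Perm R.support ∧ (s(p, q) ∈ q1.edges ∨ s(p, q) ∈ r.edges) := by
  obtain ⟨e, he, e', he', h⟩ := hi.conf (l := R.darts.filter fun e => e.edge ≠ s(p, q))
    (U := R.support) (X := [y, p, q]) (A := A) (d := d) (by
      refine List.Nodup.sublist (List.Sublist.map _ List.filter_sublist) ?_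
      rw [Walk.map_snd_darts]
      exact hR.support_nodup.tail) (by
      cases R with
      | nil => exact absurd rfl hxy
      | cons h r =>
        refine List.ne_nil_of_mem (a := ⟨(_, _), h⟩) (List.mem_filter.2 ⟨by simp, ?_⟩)
        simp [Dart.edge, hp, hq]) (fun e he =>
      ⟨R.dart_fst_mem_support_of_mem_darts (List.mem_filter.1 he).1,
        R.dart_snd_mem_support_of_mem_darts (List.mem_filter.1 he).1⟩) (by
      intro v hv
      rw [← R.map_fst_darts_append, List.mem_append, List.mem_singleton] at hv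
      rcases hv with hv | rfl
      · obtain ⟨e, he, rfl⟩ := List.mem_map.1 hv
        by_cases h : e.edge = s(p, q)
        · rw [Dart.edge, Sym2.eq_iff] at h
          rcases h with h | h
          · exact Or.inl (by simp [h.1])
          · exact Or.inl (by simp [h.1])
        · exact Or.inr (List.mem_map.2 ⟨e, List.mem_filter.2 ⟨he, by simpa using h⟩, rfl⟩)
      · exact Or.inl (by simp)) hd hA hc
  rw [List.mem_filter] at he he'
  obtain ⟨u, w, q1, r, h1, h2, h3, h4⟩ := h.cut R he.1 he'.1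
  exact ⟨u, w, q1, r, h1, h2, h3, h4 _ hf (Ne.symm (by simpa using he.2))
    (Ne.symm (by simpa using he'.2))⟩

theorem dg_out (hc : Con G k) (U : List V) (v : V) :
    k ≤ dg G (univ.filter fun x => x ∉ U) v + (U.toFinset.filter fun x => G.Adj v x).card := by
  refine (hc.deg v).trans (le_trans (card_le_card fun w hw => ?_) (card_union_le _ _))
  simp only [mem_union, mem_filter, mem_univ, true_and, List.mem_toFinset] at hw ⊢
  tauto

theorem span2 (hi : Ind G a) (hc : Con G k) (hk : a + 5300 ≤ k) {d u u' w w' p q : V}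
    (pq : G.Adj p q) (hn : [d, q, u, w', p].Nodup) (h1 : u' ∉ [d, q, u, w', p])
    (h2 : w ∉ [d, q, u, w', p]) :
    ∃ (R : G.Walk w' u) (P : G.Walk u' w), s(p, q) ∈ R.edges ∧
      (d :: (R.support ++ P.support)).Nodup ∧ ∀ v, v ∈ d :: (R.support ++ P.support) := by
  simp only [List.nodup_cons, List.mem_cons, List.not_mem_nil, or_false, not_or] at hn h1 h2
  obtain ⟨⟨n1, n2, n3, n4⟩, ⟨n5, n6, n7⟩, ⟨n8, n9⟩, n10, -⟩ := hn
  obtain ⟨St, hSt⟩ : ∃ St : G.Walk w' u → Prop, ∀ R, St R ↔ (d :: R.support).Nodup ∧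
      s(p, q) ∈ R.edges ∧ ∃ P : G.Walk u' w, ∀ v ∈ P.support, v ∉ d :: R.support :=
    ⟨_, fun _ => Iff.rfl⟩
  have start : ∃ R, St R := by
    obtain ⟨own, o1, o2⟩ := hc.knit (by omega) [d, q, u, w', p, u', w] (by simp) (by simp)
    obtain ⟨T1, a1, b1⟩ := o2 w' (by simp) p (by simp)
    obtain ⟨T2, a2, b2⟩ := o2 q (by simp) u (by simp)
    obtain ⟨T3, -, b3⟩ := o2 u' (by simp) w (by simp)
    have t0 : Tag own [d] [d] := ⟨by simp, by simp [o1 d (by simp)]⟩
    have t1 : Tag own T1.support [w', p] := ⟨a1.support_nodup, fun v hv => by simpa using (b1 v hv).2⟩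
    have t2 : Tag own T2.support [q, u] := ⟨a2.support_nodup, fun v hv => by simpa using (b2 v hv).2⟩
    have t3 := t0.append (t1.append t2 (by
      simp [Ne.symm n6, Ne.symm n7, Ne.symm n8, Ne.symm n9])) (by simp [n1, n2, n3, n4])
    refine ⟨jn T1 pq T2, (hSt _).2 ⟨by rw [support_jn]; exact t3.1, by simp [edges_jn], T3, ?_⟩⟩
    intro v hv hm
    rw [support_jn] at hm
    have h3 := t3.2 v hm
    simp only [List.cons_append, List.nil_append, List.mem_cons, List.not_mem_nil, or_false] at h3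
    rcases (b3 v hv).2 with h | h <;> rw [h] at h3 <;> tauto
  obtain ⟨R, hR, mx⟩ := exists_longest St (fun R => R.support.length) (Fintype.card V)
    (fun R hR => ((hSt R).1 hR).1.of_cons.length_le_card) start
  obtain ⟨r1, r2, P0, hP0⟩ := (hSt R).1 hR
  obtain ⟨P, pP, hP⟩ := path_of_walk (D := fun v => v ∉ d :: R.support) ⟨P0, hP0⟩
  obtain ⟨U, hU⟩ : ∃ U, U = d :: R.support := ⟨_, rfl⟩
  have mU : ∀ v ∈ R.support, v ∈ U := fun v hv => hU ▸ List.mem_cons_of_mem _ hv
  have grow : ∀ (A : V → Prop) (d0 : V), d0 ∉ U → (∀ v, G.Adj d0 v → A v) →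
      (a + 3 ≤ (R.support.toFinset.filter A).card ∨ ∀ v ∈ R.support, A v) →
      ∃ u0 w0, A u0 ∧ A w0 ∧ ∀ (z z' : V) (T : G.Walk z z') (P' : G.Walk u' w), T.IsPath →
        G.Adj u0 z → G.Adj z' w0 → (∀ v ∈ T.support, v ∉ U) →
        (∀ v ∈ P'.support, v ∉ U ∧ v ∉ T.support) → False := by
    intro A d0 g1 g2 g3
    obtain ⟨u0, w0, q1, r, c1, c2, c3, c4⟩ := hi.cut_off ((Walk.isPath_def _).2 r1.of_cons)
      (Ne.symm n8) n10 (Ne.symm n6) r2 (fun h => g1 (mU _ h)) g2 g3
    refine ⟨u0, w0, c1, c2, fun z z' T P' t1 t2 t3 t4 t5 => ?_⟩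
    have pm : (d :: (jn q1 t2 (jn T t3 r)).support).Perm (U ++ T.support) := by
      rw [hU, List.perm_iff_count]
      intro v
      have := c3.count_eq v
      simp only [support_jn, List.count_append, List.count_cons] at this ⊢
      omega
    have := mx (jn q1 t2 (jn T t3 r)) ((hSt _).2 ⟨pm.nodup_iff.2 (List.nodup_append.2
      ⟨hU ▸ r1, t1.support_nodup, fun _ hx y hy e => t4 y hy (e ▸ hx)⟩), by
        simp only [edges_jn, List.mem_append, List.mem_cons]
        tauto, P', fun v hv hm => by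
        rw [pm.mem_iff, List.mem_append] at hm
        exact hm.elim (t5 v hv).1 (t5 v hv).2⟩)
    have h5 := pm.length_eq
    have h6 := List.length_pos_iff.2 T.support_ne_nil
    rw [hU, List.length_append, List.length_cons, List.length_cons] at h5
    omega
  rw [← hU] at hP
  obtain ⟨Ess, hE⟩ : ∃ Ess : V → Prop, ∀ v, Ess v ↔
      ∀ Q : G.Walk u' w, (∀ x ∈ Q.support, x ∉ U) → v ∈ Q.support := ⟨_, fun _ => Iff.rfl⟩
  by_cases hall : ∀ v, v ∉ U → Ess v
  · refine ⟨R, P, r2, ?_, fun v => ?_⟩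
    · rw [← List.cons_append, ← hU]
      exact List.nodup_append.2 ⟨hU ▸ r1, pP.support_nodup, fun _ hx y hy e => hP y hy (e ▸ hx)⟩
    · rw [← List.cons_append, ← hU, List.mem_append]
      exact (em (v ∈ U)).imp_right fun h => (hE v).1 (hall v h) P hP
  exfalso
  push Not at hall
  obtain ⟨v0, v1, v2⟩ := hall
  obtain ⟨K, hK⟩ : ∃ K : Finset V, K = univ.filter fun x => x ∉ U := ⟨_, rfl⟩
  have mK : ∀ v, v ∈ K ↔ v ∉ U := fun v => by simp [hK]
  have deg : ∀ v, v ∉ U → ¬ Ess v → 5210 ≤ dg G K v := by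
    intro v g1 g2
    have e1 := dg_out hc U v
    rw [← hK] at e1
    have e2 : (U.toFinset.filter fun x => G.Adj v x) ⊆
        insert d (R.support.toFinset.filter fun x => G.Adj v x) := by
      intro x hx
      simp only [hU, mem_insert, mem_filter, List.mem_toFinset, List.mem_cons] at hx ⊢
      tauto
    have e3 := (card_le_card e2).trans (card_insert_le _ _)
    by_contra hlt
    obtain ⟨u0, w0, c1, c2, c3⟩ := grow (fun x => G.Adj v x) v g1 (fun _ h => h) (Or.inl (by omega))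
    rw [hE] at g2
    push Not at g2
    obtain ⟨Q, g3, g4⟩ := g2
    refine c3 v v Walk.nil Q Walk.IsPath.nil c1.symm c2 (by simpa using g1) fun x hx => ⟨g3 x hx, ?_⟩
    rw [Walk.support_nil, List.mem_singleton]
    rintro rfl
    exact g4 hx
  obtain ⟨A0, hA0⟩ : ∃ A0 : Finset V, ∀ v, v ∈ A0 ↔
      ∃ W : G.Walk v0 v, ∀ x ∈ W.support, x ∉ U ∧ ¬ Ess x :=
    ⟨univ.filter fun v => ∃ W : G.Walk v0 v, ∀ x ∈ W.support, x ∉ U ∧ ¬ Ess x, by simp⟩
  have pA : ∀ v ∈ A0, v ∉ U ∧ ¬ Ess v := fun v hv => by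
    obtain ⟨W, hW⟩ := (hA0 v).1 hv
    exact hW v W.end_mem_support
  have fr : ∃ F : Finset V, F.card ≤ 2 ∧
      ∀ y ∈ K, y ∉ A0 → y ∉ F → ∀ v ∈ A0, ¬ G.Adj y v := by
    have es : ∀ y ∈ K, y ∉ A0 → ∀ v ∈ A0, G.Adj y v → Ess y := by
      intro y hy hn v hv ha
      by_contra hne
      obtain ⟨W, hW⟩ := (hA0 v).1 hv
      refine hn ((hA0 y).2 ⟨W.concat ha.symm, fun x hx => ?_⟩)
      rw [Walk.support_concat, List.mem_append, List.mem_singleton] at hx
      rcases hx with hx | rfl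
      · exact hW x hx
      · exact ⟨(mK _).1 hy, hne⟩
    by_cases hx : ∃ y ∈ P.support, Ess y ∧ ∃ v ∈ A0, G.Adj y v
    · obtain ⟨e, e', P1, P2, ⟨-, x1, x2, x3⟩, ⟨-, y1, y2, y3⟩, f1, f2⟩ := two_hits P hx
      obtain ⟨W1, hW1⟩ := (hA0 x1).1 x2
      obtain ⟨W2, hW2⟩ := (hA0 y1).1 y2
      refine ⟨{e, e'}, card_le_two, fun y hy hn hF v hv ha => ?_⟩
      have ey := es y hy hn v hv ha
      have hW : ∀ x ∈ (W1.reverse.append W2).support, x ∉ U ∧ ¬ Ess x := by
        intro x hx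
        rw [Walk.mem_support_append_iff, Walk.support_reverse, List.mem_reverse] at hx
        exact hx.elim (hW1 x) (hW2 x)
      have := (hE y).1 ey (jn P1 x3 (jn (W1.reverse.append W2) y3.symm P2)) (by
        intro x hx
        simp only [support_jn, List.mem_append] at hx
        rcases hx with hx | hx | hx
        · exact hP x (f1 x hx).1
        · exact (hW x hx).1
        · exact hP x (f2 x hx).1)
      simp only [support_jn, List.mem_append] at this
      rw [mem_insert, mem_singleton, not_or] at hF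
      rcases this with h | h | h
      · exact hF.1 ((f1 y h).2 ⟨ey, v, hv, ha⟩)
      · exact (hW y h).2 ey
      · exact hF.2 ((f2 y h).2 ⟨ey, v, hv, ha⟩)
    · refine ⟨∅, by simp, fun y hy hn _ v hv ha => hx ?_⟩
      have ey := es y hy hn v hv ha
      exact ⟨y, (hE y).1 ey P hP, ey, v, hv, ha⟩
  obtain ⟨F, f1, f2⟩ := fr
  obtain ⟨A, H, X, i1, i2, i3, i4, i5, -, i7⟩ := isolate (G := G) (K := K) (A0 := A0)
    (fun v hv => (mK v).2 (pA v hv).1) ⟨v0, (hA0 v0).2 ⟨Walk.nil, by simpa using ⟨v1, v2⟩⟩⟩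
    ((bw_le f2).trans (by omega)) fun v hv => deg v (pA v hv).1 (pA v hv).2
  have rr : ∃ e e', e ∈ H ∧ e' ∈ H ∧ ∀ (T : G.Walk e e') (L : List V),
      (∀ v ∈ T.support, v ∈ H ∧ v ∉ L) → (∀ v ∈ L, v ∈ H) →
      ∃ P' : G.Walk u' w, ∀ v ∈ P'.support, v ∉ U ∧ v ∉ L := by
    by_cases hx : ∃ y ∈ P.support, y ∈ H
    · obtain ⟨e, e', P1, P2, x1, x2, g1, g2⟩ := two_hits P hx
      refine ⟨e, e', x1, x2, fun T L t1 t2 => ⟨P1.append (T.append P2), fun v hv => ?_⟩⟩
      rw [Walk.mem_support_append_iff, Walk.mem_support_append_iff] at hv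
      rcases hv with h | h | h
      · exact ⟨hP v (g1 v h).1, fun m =>
          (t1 e T.start_mem_support).2 ((g1 v h).2 (t2 v m) ▸ m)⟩
      · exact ⟨(mK v).1 (i2 (t1 v h).1), (t1 v h).2⟩
      · exact ⟨hP v (g2 v h).1, fun m =>
          (t1 e' T.end_mem_support).2 ((g2 v h).2 (t2 v m) ▸ m)⟩
    · obtain ⟨e, he⟩ := card_pos.1 (show 0 < A.card by omega)
      exact ⟨e, e, i1 he, i1 he, fun _ L _ t2 => ⟨P, fun v hv => ⟨hP v hv, fun m =>
        hx ⟨v, hv, t2 v m⟩⟩⟩⟩
  obtain ⟨e, e', eH, eH', rr⟩ := rr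
  have ne' : (A \ {e, e'}).Nonempty := by
    have g1 := le_card_sdiff ({e, e'} : Finset V) A
    have g2 : ({e, e'} : Finset V).card ≤ 2 := card_le_two
    exact card_pos.1 (by omega)
  have nU : ∀ v ∈ A \ {e, e'}, v ∉ U := fun v hv => (mK v).1 (i2 (i1 (mem_sdiff.1 hv).1))
  have att := hc.attach (A := A \ {e, e'}) (X := insert d (insert e (insert e' X)))
    (U := R.support) ne' (fun v hv h => nU v hv (mU v h)) (by
      intro v hv x ha
      have := i7 v (mem_sdiff.1 hv).1 x ha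
      simp only [mK, hU, not_not, List.mem_cons, mem_sdiff, mem_insert, mem_singleton] at this ⊢
      tauto)
  have cX : (insert d (insert e (insert e' X))).card ≤ 341 := by
    have g1 := card_insert_le d (insert e (insert e' X))
    have g2 := card_insert_le e (insert e' X)
    have g3 := card_insert_le e' X
    omega
  obtain ⟨d0, hd0⟩ := ne'
  obtain ⟨u0, w0, ⟨z, z1, z2⟩, ⟨z', z3, z4⟩, c3⟩ := grow (Nb G (A \ {e, e'}))
    d0 (nU d0 hd0) (fun v h => ⟨d0, hd0, h⟩) (att.imp_left fun h => by omega)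
  simp only [mem_sdiff, mem_insert, mem_singleton, not_or] at z1 z3
  obtain ⟨own, -, o2⟩ := i4 [e, e', z, z'] (by simp) (by simp [eH, eH', i1 z1.1, i1 z3.1])
  obtain ⟨T1, -, b1⟩ := o2 e (by simp) e' (by simp)
  obtain ⟨T2, a2, b2⟩ := o2 z (by simp) z' (by simp)
  obtain ⟨P', hP'⟩ := rr T1 T2.support (fun v hv => ⟨(b1 v hv).1, fun m => by
    rcases (b2 v m).2 with h | h <;> rcases (b1 v hv).2 with h' | h' <;> rw [h] at h'
    · exact z1.2.1 h'
    · exact z1.2.2 h'
    · exact z3.2.1 h'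
    · exact z3.2.2 h'⟩) fun v hv => (b2 v hv).1
  exact c3 z z' T2 P' a2 z2.symm z4 (fun v hv => (mK v).1 (i2 (b2 v hv).1)) hP'

end Pool.Agent.Lib.MP_0a7691_co.CS
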