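import Pool.Agent.Lib.MP_0a7691_co.CS.Move

/-! The step of the downward induction on the length of a cycle. -/

namespace Pool.Agent.Lib.MP_0a7691_co.CS

open SimpleGraph Finset
open scoped Classical

variable {V : Type*} [Fintype V] {G : SimpleGraph V} {a k m : ℕ} {φ : Sym2 V → ZMod 2}
  {t : V → ZMod 2} {T : ZMod 2}

omit [Fintype V] in
theorem fresh {H : Finset V} {v : V} (h : 14 ≤ dg G H v) {L : List V} (hL : L.length < 14)
    (hn : L.Nodup) : ∃ x, x ∈ H ∧ G.Adj v x ∧ (x :: L).Nodup := by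
  obtain ⟨x, hx, hm⟩ := exists_mem_notMem_of_card_lt_card
    (show L.toFinset.card < (H.filter fun w => G.Adj v w).card from
      lt_of_le_of_lt (List.toFinset_card_le L) (lt_of_lt_of_le hL h))
  rw [mem_filter] at hx
  exact ⟨x, hx.1, hx.2, List.nodup_cons.2 ⟨fun m => hm (List.mem_toFinset.2 m), hn⟩⟩

omit [Fintype V] in
theorem Tag.cons2 {own : V → V} {H : Finset V} {x y : V} {l M : List V} (h : Tag own l M)
    (hl : ∀ v ∈ l, v ∈ H) (hn : (x :: y :: M).Nodup)
    (hT : ∃ T : G.Walk y x, T.IsPath ∧ ∀ v ∈ T.support, v ∈ H ∧ (own v = y ∨ own v = x)) :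
    ∃ T : G.Walk y x, Tag own (T.support ++ l) (x :: y :: M) ∧ ∀ v ∈ T.support ++ l, v ∈ H := by
  obtain ⟨T, t1, t2⟩ := hT
  have t3 : Tag own T.support [x, y] :=
    ⟨t1.support_nodup, fun v hv => by simpa using (t2 v hv).2.symm⟩
  refine ⟨T, t3.append h fun v hv hm => ?_, fun v hv => ?_⟩
  · exact (List.nodup_append.1 (show ([x, y] ++ M).Nodup from hn)).2.2 v hv v hm rfl
  · exact (List.mem_append.1 hv).elim (fun h => (t2 v h).1) (hl v)

omit [Fintype V] in
theorem Long.cross' (hL : Long G φ t T m) (ht : InsVal G φ t) {H : Finset V} (hH : Knit G H)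
    {u u' w w' x x' y y' zu zw zx zy : V} (r1 : G.Walk w' x) (r2 : G.Walk x' u) (r3 : G.Walk u' y)
    (r4 : G.Walk y' w) (uu : G.Adj u u') (ww : G.Adj w w') (xx : G.Adj x x') (yy : G.Adj y y')
    (uw : G.Adj u' w') (xy : G.Adj x' y') (hu : G.Adj zu u) (hw : G.Adj zw w) (hx : G.Adj zx x)
    (hy : G.Adj zy y) (hz : ∀ z ∈ [zu, zw, zx, zy], z ∈ H ∧ 14 ≤ dg G H z) (n1 : zu ≠ zw)
    (n2 : zx ≠ zu ∧ zx ≠ zw) (n3 : zy ≠ zu ∧ zy ≠ zw)
    (nd : ((jn r1 xx r2).support ++ (jn r3 yy r4).support).Nodup)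
    (hd : ∀ v ∈ H, v ∉ (jn r1 xx r2).support ++ (jn r3 yy r4).support)
    (ln : m ≤ ((jn r1 xx r2).support ++ (jn r3 yy r4).support).length) :
    ps φ t (jn r1 xx r2) + ps φ t (jn r3 yy r4) + φ s(u, u') + φ s(w, w') = T := by
  by_cases n4 : zx = zy
  · subst n4
    have pm : ((jn r4 ww r1).support ++ (jn r2 uu r3).support).Perm
        ((jn r1 xx r2).support ++ (jn r3 yy r4).support) := by
      rw [List.perm_iff_count]
      intro v
      simp only [support_jn, List.count_append]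
      omega
    have := hL.single ht (jn r4 ww r1) (jn r2 uu r3) xx yy xy hx hy (pm.nodup_iff.2 nd)
      (fun h => hd zx (hz zx (by simp)).1 (pm.mem_iff.1 h)) (pm.length_eq ▸ ln)
    simp only [ps_jn] at this ⊢
    linear_combination this
  have du := (hz zu (by simp)).2
  have dw := (hz zw (by simp)).2
  have dx := (hz zx (by simp)).2
  have dy := (hz zy (by simp)).2
  have N0 : [zu, zw, zx, zy].Nodup := by
    simp [n1, n4, n2.1.symm, n2.2.symm, n3.1.symm, n3.2.symm]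
  obtain ⟨a1, m1, ha, N1⟩ := fresh du (by simp) N0
  obtain ⟨a2, m2, ha', N2⟩ := fresh dx (by simp) N1
  obtain ⟨b1, m3, hb, N3⟩ := fresh dx (by simp) N2
  obtain ⟨b2, m4, hb', N4⟩ := fresh dw (by simp) N3
  obtain ⟨c1, m5, hc, N5⟩ := fresh du (by simp) N4
  obtain ⟨c2, m6, hc', N6⟩ := fresh dy (by simp) N5
  obtain ⟨d1, m7, hd1, N7⟩ := fresh dy (by simp) N6
  obtain ⟨d2, m8, hd', N8⟩ := fresh dw (by simp) N7
  obtain ⟨e1, m9, he, N9⟩ := fresh dx (by simp) N8
  obtain ⟨e2, m10, he', N10⟩ := fresh dy (by simp) N9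
  obtain ⟨own, o1, o2⟩ := hH [e2, e1, d2, d1, c2, c1, b2, b1, a2, a1, zu, zw, zx, zy] (by simp)
    (by simp [m1, m2, m3, m4, m5, m6, m7, m8, m9, m10, (hz zu (by simp)).1, (hz zw (by simp)).1,
      (hz zx (by simp)).1, (hz zy (by simp)).1])
  have t0 : Tag own [zu, zw, zx, zy] [zu, zw, zx, zy] := ⟨N0, fun v hv => by
    rw [o1 v (List.mem_append_right [e2, e1, d2, d1, c2, c1, b2, b1, a2, a1] hv)]
    exact hv⟩
  obtain ⟨A, t1, s1⟩ := t0.cons2 (fun v hv => (hz v hv).1) N2 (o2 a1 (by simp) a2 (by simp))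
  obtain ⟨B, t2, s2⟩ := t1.cons2 s1 N4 (o2 b1 (by simp) b2 (by simp))
  obtain ⟨C, t3, s3⟩ := t2.cons2 s2 N6 (o2 c1 (by simp) c2 (by simp))
  obtain ⟨D, t4, s4⟩ := t3.cons2 s3 N8 (o2 d1 (by simp) d2 (by simp))
  obtain ⟨E, t5, s5⟩ := t4.cons2 s4 N10 (o2 e1 (by simp) e2 (by simp))
  refine hL.cross r1 r2 r3 r4 uu ww xx yy uw xy hu hw hx hy A B C D E ha ha' hb hb' hc hc' hd1 hd'
    he he' (List.nodup_append.2 ⟨nd, t5.1, ?_⟩) ln
  rintro v hv v' hv' rfl
  exact hd v (s5 v hv') hv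

theorem Long.step (hi : Ind G a) (hc : Con G k) (hk : a + 5300 ≤ k) (hL : Long G φ t T m)
    (ht : InsVal G φ t) {x y : V} (q : G.Walk x y) (hq : q.support.Nodup) (h : G.Adj y x)
    (h3 : 3 ≤ q.support.length) (hm : m ≤ q.support.length) {v0 : V} (hv0 : v0 ∉ q.support) :
    ps φ t q + φ s(y, x) = T := by
  have one : ∀ {u u' w w' d : V} (s1 : G.Walk w' u) (s2 : G.Walk u' w), G.Adj u u' → G.Adj w w' →
      G.Adj u' w' → G.Adj d u → G.Adj d w → (s1.support ++ s2.support).Perm q.support →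
      d ∉ q.support → ps φ t s1 + ps φ t s2 + φ s(u, u') + φ s(w, w') = T :=
    fun s1 s2 uu ww uw du dw pm hd => hL.single ht s1 s2 uu ww uw du dw (pm.nodup_iff.2 hq)
      (fun h => hd (pm.mem_iff.1 h)) (pm.length_eq ▸ hm)
  by_cases hbig : ∃ d, d ∉ q.support ∧
      a + 1 ≤ (q.support.toFinset.filter fun v => G.Adj d v).card
  · obtain ⟨d, hd, hb⟩ := hbig
    obtain ⟨u, u', w, w', s1, s2, uu, ww, uw, du, dw, pm, e⟩ := hi.normal (φ := φ) (t := t) hq h
      (A := fun v => G.Adj d v) hd (fun _ h => h) (Or.inl hb)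
    rw [e]
    exact one s1 s2 uu ww uw du dw pm hd
  push Not at hbig
  obtain ⟨K, hK⟩ : ∃ K : Finset V, K = univ.filter fun v => v ∉ q.support := ⟨_, rfl⟩
  have mK : ∀ v, v ∈ K ↔ v ∉ q.support := fun v => by simp [hK]
  obtain ⟨A, H, X, i1, i2, i3, i4, i5, i6, i7⟩ := isolate (G := G) (K := K) (A0 := K) Subset.rfl
    ⟨v0, (mK v0).2 hv0⟩ ((bw_le (F := ∅) fun y h1 h2 => absurd h1 h2).trans (by simp)) (by
      intro v hv
      have e1 := dg_out hc q.support v
      have e2 := hbig v ((mK v).1 hv)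
      rw [← hK] at e1
      omega)
  have nH : ∀ v ∈ H, v ∉ q.support := fun v hv => (mK v).1 (i2 hv)
  obtain ⟨d0, hd0⟩ := card_pos.1 (show 0 < A.card by omega)
  have at1 := hc.attach (A := A) (X := X) (U := q.support) ⟨d0, hd0⟩ (fun v hv => nH v (i1 hv))
    fun v hv w ha => by simpa only [mK, not_not] using i7 v hv w ha
  obtain ⟨u, u', w, w', s1, s2, uu, ww, uw, ⟨zu, au, hu⟩, ⟨zw, aw, hw⟩, pm, e⟩ :=
    hi.normal (φ := φ) (t := t) hq h (A := Nb G A) (nH d0 (i1 hd0)) (fun v h => ⟨d0, hd0, h⟩)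
      (at1.imp_left fun h => by omega)
  rw [e]
  by_cases n1 : zu = zw
  · subst n1
    exact one s1 s2 uu ww uw hu hw pm (nH zu (i1 au))
  have nd := pm.nodup_iff.2 hq
  have nS : ∀ v ∈ H, v ∉ s1.support ++ s2.support := fun v hv h => nH v hv (pm.mem_iff.1 h)
  have ln : m ≤ (s1.support ++ s2.support).length := pm.length_eq ▸ hm
  have ne' : (A \ {zu, zw}).Nonempty := by
    have g1 := le_card_sdiff ({zu, zw} : Finset V) A
    have g2 : ({zu, zw} : Finset V).card ≤ 2 := card_le_two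
    exact card_pos.1 (by omega)
  have at2 := hc.attach (A := A \ {zu, zw}) (X := insert zu (insert zw X))
    (U := s1.support ++ s2.support) ne' (fun v hv => nS v (i1 (mem_sdiff.1 hv).1)) (by
      intro v hv z ha
      have g1 := i7 v (mem_sdiff.1 hv).1 z ha
      rw [mK, not_not, ← pm.mem_iff] at g1
      rw [mem_sdiff, mem_insert, mem_insert, mem_insert, mem_singleton]
      by_cases g2 : z = zu ∨ z = zw
      · exact Or.inr (Or.inl (g2.imp_right Or.inl))
      · exact g1.imp (fun h => ⟨h, g2⟩) (Or.imp_left fun h => Or.inr (Or.inr h)))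
  have cX : (insert zu (insert zw X)).card ≤ 340 := by
    have g1 := card_insert_le zu (insert zw X)
    have g2 := card_insert_le zw X
    omega
  obtain ⟨d1, hd1⟩ := ne'
  obtain ⟨e, he, e', he', cf⟩ := hi.conf (l := s1.darts ++ s2.darts) (U := s1.support ++ s2.support)
    (X := [u, w]) (A := Nb G (A \ {zu, zw})) (d := d1) (by
      rw [List.map_append, Walk.map_snd_darts, Walk.map_snd_darts]
      exact nd.sublist ((List.tail_sublist _).append (List.tail_sublist _))) (by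
      intro h0
      have g1 := congrArg List.length h0
      have g2 := pm.length_eq
      simp only [List.length_append, Walk.length_darts, Walk.length_support, List.length_nil]
        at g1 g2 h3
      omega) (by
      intro e he
      rw [List.mem_append] at he
      rw [List.mem_append, List.mem_append]
      exact ⟨he.imp s1.dart_fst_mem_support_of_mem_darts s2.dart_fst_mem_support_of_mem_darts,
        he.imp s1.dart_snd_mem_support_of_mem_darts s2.dart_snd_mem_support_of_mem_darts⟩) (by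
      intro v hv
      rw [← s1.map_fst_darts_append, ← s2.map_fst_darts_append] at hv
      simp only [List.mem_append, List.map_append, List.mem_cons, List.not_mem_nil, or_false]
        at hv ⊢
      rcases hv with (h | h) | h | h
      · exact Or.inr (Or.inl h)
      · exact Or.inl (Or.inl h)
      · exact Or.inr (Or.inr h)
      · exact Or.inl (Or.inr h)) (nS d1 (i1 (mem_sdiff.1 hd1).1)) (fun v h => ⟨d1, hd1, h⟩)
    (at2.imp_left fun h => by simp only [List.length_cons, List.length_nil]; omega)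
  have link : ∀ z ∈ A \ {zu, zw}, ∀ z' ∈ A \ {zu, zw}, ∃ (P : G.Walk zu zw) (Q : G.Walk z z'),
      (s1.support ++ s2.support ++ (P.support ++ Q.support)).Nodup := by
    intro z z1 z' z3
    simp only [mem_sdiff, mem_insert, mem_singleton, not_or] at z1 z3
    obtain ⟨own, -, o2⟩ := i4 [zu, zw, z, z'] (by simp) (by simp [i1 au, i1 aw, i1 z1.1, i1 z3.1])
    obtain ⟨P, a1, b1⟩ := o2 zu (by simp) zw (by simp)
    obtain ⟨Q, a2, b2⟩ := o2 z (by simp) z' (by simp)
    have t1 : Tag own P.support [zu, zw] :=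
      ⟨a1.support_nodup, fun v hv => by simpa using (b1 v hv).2⟩
    have t2 : Tag own Q.support [z, z'] :=
      ⟨a2.support_nodup, fun v hv => by simpa using (b2 v hv).2⟩
    refine ⟨P, Q, List.nodup_append.2 ⟨nd, (t1.append t2 (by
      simp [Ne.symm z1.2.1, Ne.symm z1.2.2, Ne.symm z3.2.1, Ne.symm z3.2.2])).1, ?_⟩⟩
    rintro v hv v' hv' rfl
    exact nS v ((List.mem_append.1 hv').elim (fun h => (b1 v h).1) fun h => (b2 v h).1) hv
  have in1 : ∀ e ∈ s1.darts, ∀ e' ∈ s1.darts, Conf (Nb G (A \ {zu, zw})) e e' →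
      ps φ t s1 + ps φ t s2 + φ s(u, u') + φ s(w, w') = T := by
    intro e he e' he' cf
    obtain ⟨x0, y0, q1, r, ⟨z, z1, z2⟩, ⟨z', z3, z4⟩, c3, -⟩ := cf.cut s1 he he'
    obtain ⟨P, Q, hPQ⟩ := link z z1 z' z3
    refine hL.par s1 (jn q1 z2.symm (jn Q z4 r)) s2 s2 uu ww uw P hu.symm hw Q.support_ne_nil hPQ
      ?_ ln
    rw [List.perm_iff_count]
    intro v
    have := c3.count_eq v
    simp only [support_jn, List.count_append] at this ⊢
    omega
  have in2 : ∀ e ∈ s2.darts, ∀ e' ∈ s2.darts, Conf (Nb G (A \ {zu, zw})) e e' →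
      ps φ t s1 + ps φ t s2 + φ s(u, u') + φ s(w, w') = T := by
    intro e he e' he' cf
    obtain ⟨x0, y0, q1, r, ⟨z, z1, z2⟩, ⟨z', z3, z4⟩, c3, -⟩ := cf.cut s2 he he'
    obtain ⟨P, Q, hPQ⟩ := link z z1 z' z3
    refine hL.par s1 s1 s2 (jn q1 z2.symm (jn Q z4 r)) uu ww uw P hu.symm hw Q.support_ne_nil hPQ
      ?_ ln
    rw [List.perm_iff_count]
    intro v
    have := c3.count_eq v
    simp only [support_jn, List.count_append] at this ⊢
    omega
  have crs : ∀ e ∈ s1.darts, ∀ e' ∈ s2.darts, Conf (Nb G (A \ {zu, zw})) e e' →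
      ps φ t s1 + ps φ t s2 + φ s(u, u') + φ s(w, w') = T := by
    intro e he e' he' cf
    rcases cf with ⟨rfl, cf⟩ | ⟨-, ⟨zx, z1, z2⟩, ⟨zy, z3, z4⟩, xy⟩
    · exact in1 e he e he (Or.inl ⟨rfl, cf⟩)
    obtain ⟨r1, r2, e1⟩ := split1 s1 he
    obtain ⟨r3, r4, e2⟩ := split1 s2 he'
    have e1' : s1 = jn r1 e.adj r2 := e1
    have e2' : s2 = jn r3 e'.adj r4 := e2
    simp only [mem_sdiff, mem_insert, mem_singleton, not_or] at z1 z3
    rw [e1', e2'] at nd nS ln ⊢
    refine hL.cross' ht i4 r1 r2 r3 r4 uu ww e.adj e'.adj uw xy hu hw z2 z4 ?_ n1 z1.2 z3.2 nd nS ln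
    simp [i1 au, i1 aw, i1 z1.1, i1 z3.1, i6 _ au, i6 _ aw, i6 _ z1.1, i6 _ z3.1]
  rcases List.mem_append.1 he with he | he <;> rcases List.mem_append.1 he' with he' | he'
  · exact in1 e he e' he' cf
  · exact crs e he e' he' cf
  · exact crs e' he' e he cf.symm
  · exact in2 e he e' he' cf

end Pool.Agent.Lib.MP_0a7691_co.CS
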